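import Pool.Agent.Helper53.SCD.Zlog

/-!
# Ideals of prime norm and homomorphisms to prime fields
-/

set_option autoImplicit false

open NumberField Ideal

namespace Pool.Agent.H53SCD

open Pool.Agent.Helper70.Art

noncomputable section

theorem absNorm_ker {K : Type*} [Field K] [NumberField K] (p : ℕ) [hp : Fact p.Prime]
    (φ : 𝓞 K →+* ZMod p) : absNorm (RingHom.ker φ) = p := by
  rw [absNorm_apply, Submodule.cardQuot_apply]
  have h := RingHom.quotientKerEquivOfSurjective (ZMod.ringHom_surjective φ)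
  rw [Nat.card_congr h.toEquiv, Nat.card_zmod]

theorem cnt_eq_homs (K : Type*) [Field K] [NumberField K] (p : ℕ) [hp : Fact p.Prime] :
    cnt K p = Nat.card (𝓞 K →+* ZMod p) := by
  symm
  refine Nat.card_congr (Equiv.ofBijective
    (fun φ : 𝓞 K →+* ZMod p => (⟨RingHom.ker φ, absNorm_ker p φ⟩ :
      {I : Ideal (𝓞 K) // absNorm I = p})) ⟨?_, ?_⟩)
  · intro φ φ' h
    exact ZMod.ringHom_eq_of_ker_eq φ φ' (congrArg Subtype.val h)
  · rintro ⟨I, hI⟩
    rw [absNorm_apply, Submodule.cardQuot_apply] at hI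
    have hfin : Finite (𝓞 K ⧸ I) := Nat.finite_of_card_ne_zero (by
      rw [hI]; exact hp.out.ne_zero)
    have := Fintype.ofFinite (𝓞 K ⧸ I)
    rw [Nat.card_eq_fintype_card] at hI
    let e := (ZMod.ringEquivOfPrime (𝓞 K ⧸ I) hp.out hI).symm
    refine ⟨e.toRingHom.comp (Ideal.Quotient.mk I), ?_⟩
    apply Subtype.ext
    change RingHom.ker (e.toRingHom.comp (Ideal.Quotient.mk I)) = I
    ext x
    rw [RingHom.mem_ker]
    change e (Ideal.Quotient.mk I x) = 0 ↔ x ∈ I
    rw [EmbeddingLike.map_eq_zero_iff, Ideal.Quotient.eq_zero_iff_mem]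

theorem finite_homs (K : Type*) [Field K] [NumberField K] (p : ℕ) [hp : Fact p.Prime] :
    Finite (𝓞 K →+* ZMod p) := by
  have : Finite {I : Ideal (𝓞 K) // absNorm I = p} := finite_setOfPred_absNorm_eq p
  refine Finite.of_injective
    (fun φ : 𝓞 K →+* ZMod p => (⟨RingHom.ker φ, absNorm_ker p φ⟩ :
      {I : Ideal (𝓞 K) // absNorm I = p})) ?_
  intro φ φ' h
  exact ZMod.ringHom_eq_of_ker_eq φ φ' (congrArg Subtype.val h)

/-- Homomorphisms to algebraically closed fields extend to integral extensions. -/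
theorem exists_hom_ext {A B F : Type*} [CommRing A] [CommRing B] [Algebra A B]
    [Algebra.IsIntegral A B] [FaithfulSMul A B] [Field F] [IsAlgClosed F] (ψ : A →+* F) :
    ∃ Ψ : B →+* F, ∀ a, Ψ (algebraMap A B a) = ψ a := by
  have hP : (RingHom.ker ψ).IsPrime := RingHom.ker_isPrime ψ
  obtain ⟨Q, -, hQ, hQP⟩ := Ideal.exists_ideal_over_prime_of_isIntegral (RingHom.ker ψ)
    (⊥ : Ideal B) (by
      rw [← RingHom.ker_eq_comap_bot]
      intro x hx
      have : x = 0 := by
        apply FaithfulSMul.algebraMap_injective A B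
        rw [map_zero]
        exact hx
      rw [this]
      exact zero_mem _)
  have hlie : Q.LiesOver (RingHom.ker ψ) := ⟨hQP.symm⟩
  let ψ' : (A ⧸ RingHom.ker ψ) →+* F := RingHom.kerLift ψ
  letI : Algebra (A ⧸ RingHom.ker ψ) F := ψ'.toAlgebra
  have hinj : Function.Injective (algebraMap (A ⧸ RingHom.ker ψ) F) := RingHom.kerLift_injective ψ
  have : FaithfulSMul (A ⧸ RingHom.ker ψ) F :=
    (faithfulSMul_iff_algebraMap_injective _ _).2 hinj
  have hinj2 : Function.Injective (algebraMap (A ⧸ RingHom.ker ψ) (B ⧸ Q)) :=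
    FaithfulSMul.algebraMap_injective _ _
  have : FaithfulSMul (A ⧸ RingHom.ker ψ) (B ⧸ Q) :=
    (faithfulSMul_iff_algebraMap_injective _ _).2 hinj2
  have : Algebra.IsIntegral (A ⧸ RingHom.ker ψ) (B ⧸ Q) := inferInstance
  have : Algebra.IsAlgebraic (A ⧸ RingHom.ker ψ) (B ⧸ Q) := inferInstance
  have : IsDomain (B ⧸ Q) := inferInstance
  let Φ : (B ⧸ Q) →ₐ[A ⧸ RingHom.ker ψ] F := IsAlgClosed.lift
  refine ⟨(Φ : (B ⧸ Q) →+* F).comp (Ideal.Quotient.mk Q), fun a => ?_⟩
  have h1 := Φ.commutes (Ideal.Quotient.mk _ a)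
  change Φ (Ideal.Quotient.mk Q (algebraMap A B a)) = ψ a
  rw [Ideal.Quotient.algebraMap_mk_of_liesOver] at h1
  exact h1

end

end Pool.Agent.H53SCD
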