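import Pool.Agent.Helper53.SCD.Moments

/-!
# Tuples of roots
-/

set_option autoImplicit false

open NumberField Polynomial MulAction

namespace Pool.Agent.H53SCD

open Pool.Agent.Helper70.Art

noncomputable section

variable {k L : Type*} [Field k] [NumberField k] [Field L] [NumberField L] [Algebra k L]

theorem mem_io_iff (p : ℕ) [hp : Fact p.Prime] (t : Fb p) : (∃ a, io p a = t) ↔ t ^ p = t := by
  have h3 : CharP (Fb p) p := charP_of_injective_algebraMap (io_inj p) p
  rw [← Subfield.mem_bot_iff_pow_eq_self (F := Fb p) (p := p)]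
  rw [← ZMod.fieldRange_castHom_eq_bot p (K := Fb p), RingHom.mem_fieldRange]
  have h : io p = ZMod.castHom (dvd_refl p) (Fb p) := RingHom.ext_zmod _ _
  rw [h]

theorem frob_orbit [IsGalois k L] (p : ℕ) [hp : Fact p.Prime] (ψ : 𝓞 k →+* ZMod p) (y : 𝓞 L) :
    ∃ g : L ≃ₐ[k] L, (extH L p ψ y) ^ p = extH L p ψ (g • y) := by
  classical
  have := Fintype.ofFinite (L ≃ₐ[k] L)
  have h3 : CharP (Fb p) p := charP_of_injective_algebraMap (io_inj p) p
  set Ψ := extH L p ψ with hΨdef
  have hΨ := extH_spec (L := L) p ψ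
  obtain ⟨Q, hQ⟩ := (Polynomial.mem_lifts _).1
    (Algebra.IsInvariant.charpoly_mem_lifts (𝓞 k) (𝓞 L) (L ≃ₐ[k] L) y)
  rw [MulSemiringAction.charpoly_eq] at hQ
  have h1 : eval₂ (algebraMap (𝓞 k) (𝓞 L)) y Q = 0 := by
    rw [← eval_map, hQ, eval_prod]
    refine Finset.prod_eq_zero (Finset.mem_univ 1) ?_
    simp
  have h5 : (io p).comp ψ = Ψ.comp (algebraMap (𝓞 k) (𝓞 L)) := by
    ext a
    exact (hΨ a).symm
  have h2 := congrArg (frobenius (Fb p) p) (congrArg Ψ h1)
  rw [map_zero, map_zero, Polynomial.hom_eval₂, Polynomial.hom_eval₂, ← h5] at h2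
  have h6 : (frobenius (Fb p) p).comp ((io p).comp ψ) = (io p).comp ψ := by
    ext a
    change (io p (ψ a)) ^ p = io p (ψ a)
    rw [← map_pow, ZMod.pow_card]
  rw [h6, h5, ← eval₂_map, hQ, ← eval_map, Polynomial.map_prod, eval_prod,
    Finset.prod_eq_zero_iff] at h2
  obtain ⟨g, -, hg⟩ := h2
  refine ⟨g, ?_⟩
  rw [Polynomial.map_sub, map_X, map_C, eval_sub, eval_X, eval_C, sub_eq_zero] at hg
  exact hg

section tuples

variable [IsGalois k L] {Ω : Type*} [Finite Ω] [MulAction (L ≃ₐ[k] L) Ω] (β : Ω → 𝓞 L)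

/-- The linear form of a tuple. -/
def th (B : ℕ) (j : ℕ) (x : Fin j → Ω) : 𝓞 L := ∑ i : Fin j, (B : 𝓞 L) ^ (i : ℕ) * β (x i)

theorem exists_B (hβ : Function.Injective β) (j : ℕ) :
    ∃ B : ℕ, Function.Injective (th β B j) := by
  classical
  have := Fintype.ofFinite Ω
  let P : (Fin j → Ω) × (Fin j → Ω) → (𝓞 L)[X] := fun z =>
    if z.1 = z.2 then 1 else ∑ i : Fin j, C (β (z.1 i) - β (z.2 i)) * X ^ (i : ℕ)
  have hP : ∀ z, P z ≠ 0 := by
    intro z
    by_cases h : z.1 = z.2
    · simp only [P, if_pos h]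
      exact one_ne_zero
    · simp only [P, if_neg h]
      intro h0
      apply h
      funext i
      have h1 := congrArg (fun q => coeff q (i : ℕ)) h0
      simp only [finset_sum_coeff, coeff_C_mul, coeff_X_pow, coeff_zero] at h1
      rw [Finset.sum_eq_single i] at h1
      · simp only [if_true, mul_one] at h1
        exact hβ (sub_eq_zero.1 h1)
      · intro b _ hb
        rw [if_neg (fun h => hb (Fin.ext h.symm)), mul_zero]
      · intro h
        exact absurd (Finset.mem_univ i) h
  have hprod : ∏ z, P z ≠ 0 := Finset.prod_ne_zero_iff.2 fun z _ => hP z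
  have : ∃ B : ℕ, (∏ z, P z).eval (B : 𝓞 L) ≠ 0 := by
    by_contra hall
    push Not at hall
    apply hprod
    apply Polynomial.eq_zero_of_infinite_isRoot
    refine Set.Infinite.mono (s := Set.range fun B : ℕ => (B : 𝓞 L)) ?_
      (Set.infinite_range_of_injective Nat.cast_injective)
    rintro _ ⟨B, rfl⟩
    exact hall B
  obtain ⟨B, hB⟩ := this
  refine ⟨B, fun x x' h => ?_⟩
  by_contra hne
  apply hB
  rw [eval_prod]
  refine Finset.prod_eq_zero (Finset.mem_univ (x, x')) ?_
  simp only [P, if_neg hne]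
  rw [eval_finset_sum]
  simp only [eval_mul, eval_C, eval_pow, eval_X]
  unfold th at h
  rw [← sub_eq_zero, ← Finset.sum_sub_distrib] at h
  rw [← h]
  refine Finset.sum_congr rfl fun i _ => ?_
  ring

theorem th_equivariant (heq : ∀ (g : L ≃ₐ[k] L) y, β (g • y) = g • β y) (B j : ℕ)
    (g : L ≃ₐ[k] L) (x : Fin j → Ω) : th β B j (g • x) = g • th β B j x := by
  unfold th
  rw [Finset.smul_sum]
  refine Finset.sum_congr rfl fun i _ => ?_
  rw [smul_mul', Pi.smul_apply, heq, smul_pow']
  congr 2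
  have : ((B : 𝓞 k) : 𝓞 k) = B := rfl
  have h := smul_const g (B : 𝓞 k)
  rw [map_natCast] at h
  exact h.symm

theorem tuple_card (heq : ∀ (g : L ≃ₐ[k] L) y, β (g • y) = g • β y) (B j p : ℕ)
    [hp : Fact p.Prime] (ψ : 𝓞 k →+* ZMod p)
    (hinj : ∀ x x', extH L p ψ (th β B j x) = extH L p ψ (th β B j x') → x = x') :
    Nat.card {x : Fin j → Ω // InP p ψ (th β B j x)} =
      Nat.card {ω : Ω // InP p ψ (β ω)} ^ j := by
  classical
  have h3 : CharP (Fb p) p := charP_of_injective_algebraMap (io_inj p) p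
  have key : ∀ x : Fin j → Ω, InP p ψ (th β B j x) ↔ ∀ i, InP p ψ (β (x i)) := by
    intro x
    constructor
    · intro hx
      choose g hg using fun i : Fin j => frob_orbit p ψ (β (x i))
      have h1 : extH L p ψ (th β B j fun i => g i • x i) = extH L p ψ (th β B j x) := by
        have h2 : extH L p ψ (th β B j fun i => g i • x i)
            = (extH L p ψ (th β B j x)) ^ p := by
          unfold th
          rw [map_sum, map_sum, sum_pow_char]
          refine Finset.sum_congr rfl fun i _ => ?_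
          rw [map_mul, map_mul, heq, ← hg i, mul_pow, map_pow, map_natCast]
          congr 1
          rw [← pow_mul, mul_comm, pow_mul]
          congr 1
          have := (mem_io_iff p ((B : ℕ) : Fb p)).1 ⟨(B : ZMod p), by rw [map_natCast]⟩
          exact this.symm
        rw [h2]
        exact (mem_io_iff p _).1 hx
      have h4 := hinj _ _ h1
      intro i
      have h5 : g i • x i = x i := congrFun h4 i
      refine (mem_io_iff p _).2 ?_
      rw [hg i, ← heq, h5]
    · intro hx
      choose a ha using hx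
      refine ⟨∑ i : Fin j, (B : ZMod p) ^ (i : ℕ) * a i, ?_⟩
      unfold th
      rw [map_sum, map_sum]
      refine Finset.sum_congr rfl fun i _ => ?_
      rw [map_mul, map_mul, ha i, map_pow, map_pow, map_natCast, map_natCast]
  rw [Nat.card_congr (Equiv.subtypeEquivRight key)]
  have h6 := Nat.card_congr (Equiv.subtypePiEquivPi (β := fun _ : Fin j => Ω)
    (p := fun _ ω => InP p ψ (β ω)))
  rw [h6, Nat.card_pi]
  simp

/-- Burnside's lemma for tuples. -/
theorem burnside (j : ℕ) [Fintype (L ≃ₐ[k] L)]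
    [Fintype (orbitRel.Quotient (L ≃ₐ[k] L) (Fin j → Ω))] :
    ∑ g : L ≃ₐ[k] L, (Nat.card {ω : Ω // g • ω = ω}) ^ j =
      Fintype.card (orbitRel.Quotient (L ≃ₐ[k] L) (Fin j → Ω)) *
        Fintype.card (L ≃ₐ[k] L) := by
  classical
  have := Fintype.ofFinite Ω
  have hf : ∀ g : L ≃ₐ[k] L, Fintype (fixedBy (Fin j → Ω) g) := fun g => Fintype.ofFinite _
  rw [← sum_card_fixedBy_eq_card_orbits_mul_card_group]
  refine Finset.sum_congr rfl fun g _ => ?_
  have h1 : ∀ x : Fin j → Ω, x ∈ fixedBy (Fin j → Ω) g ↔ ∀ i, g • x i = x i := by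
    intro x
    rw [mem_fixedBy, funext_iff]
    rfl
  rw [← Nat.card_eq_fintype_card]
  have h2 : Nat.card (fixedBy (Fin j → Ω) g) = Nat.card {x : Fin j → Ω // ∀ i, g • x i = x i} :=
    Nat.card_congr (Equiv.subtypeEquivRight h1)
  rw [h2, Nat.card_congr (Equiv.subtypePiEquivPi (β := fun _ : Fin j => Ω)
    (p := fun _ ω => g • ω = ω)), Nat.card_pi]
  simp

end tuples

end

end Pool.Agent.H53SCD
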