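import Pool.Agent.Helper53.SCD.Density

/-!
# Arithmetic of the primes: ramification, separability, residue fields
-/

set_option autoImplicit false

open NumberField Polynomial IsDedekindDomain

namespace Pool.Agent.H53SCD

open Pool.Agent.Helper70.Art

noncomputable section

section ram

variable (k : Type*) [Field k] [NumberField k] (p : ℕ) [hp : Fact p.Prime] (ψ : 𝓞 k →+* ZMod p)

theorem natCast_mem_ker : (p : 𝓞 k) ∈ RingHom.ker ψ := by
  rw [RingHom.mem_ker, map_natCast]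
  exact ZMod.natCast_self p

theorem ker_ne_bot : RingHom.ker ψ ≠ ⊥ := by
  intro h
  have h1 := natCast_mem_ker k p ψ
  rw [h, Ideal.mem_bot] at h1
  exact hp.out.ne_zero (by exact_mod_cast h1)

/-- The prime of `ψ`. -/
def vp : HeightOneSpectrum (𝓞 k) := ⟨RingHom.ker ψ, RingHom.ker_isPrime ψ, ker_ne_bot k p ψ⟩

theorem not_mem_sq (hd : ¬ p ∣ (discr k).natAbs) : (p : 𝓞 k) ∉ RingHom.ker ψ ^ 2 := by
  intro h
  have hmax : (Ideal.span {(p : ℤ)}).IsMaximal := sp_maximal p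
  have h1 : RingHom.ker ψ ^ 2 ∣ (Ideal.span {(p : ℤ)}).map (algebraMap ℤ (𝓞 k)) := by
    rw [Ideal.map_span, Set.image_singleton, Ideal.dvd_span_singleton]
    simpa using h
  have h2 := pow_sub_one_dvd_differentIdeal ℤ (RingHom.ker ψ) 2 (sp_ne_bot p) h1
  have h3 : Ideal.absNorm (RingHom.ker ψ) ∣ Ideal.absNorm (differentIdeal ℤ (𝓞 k)) := by
    have := Ideal.absNorm_dvd_absNorm_of_le (Ideal.dvd_iff_le.1 h2)
    simpa using this
  rw [absNorm_ker p ψ, absNorm_differentIdeal (K := k)] at h3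
  exact hd h3

end ram

section sep

variable {k : Type*} [Field k] [NumberField k]

/-- Clearing denominators of a polynomial. -/
theorem clear_poly (P : k[X]) : ∃ m : ℤ, m ≠ 0 ∧ ∃ Q : (𝓞 k)[X],
    Q.map (algebraMap (𝓞 k) k) = C (m : k) * P := by
  classical
  obtain ⟨m, hm0, hm⟩ := exists_integral_multiples ℤ ℚ (Finset.univ.image
    fun i : Fin (P.natDegree + 1) => P.coeff i)
  have hc : ∀ i : ℕ, ∃ c : 𝓞 k, (c : k) = (m : k) * P.coeff i := by
    intro i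
    by_cases hi : i < P.natDegree + 1
    · have h2 := hm (P.coeff i) (Finset.mem_image.2 ⟨⟨i, hi⟩, Finset.mem_univ _, rfl⟩)
      rw [zsmul_eq_mul] at h2
      exact ⟨⟨_, h2⟩, rfl⟩
    · refine ⟨0, ?_⟩
      rw [P.coeff_eq_zero_of_natDegree_lt (by omega)]
      simp
  choose c hc using hc
  refine ⟨m, hm0, ∑ i ∈ Finset.range (P.natDegree + 1), monomial i (c i), ?_⟩
  ext i
  rw [coeff_map, coeff_C_mul]
  simp only [finset_sum_coeff, coeff_monomial]
  rw [Finset.sum_ite_eq']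
  split_ifs with h
  · exact hc i
  · rw [Finset.mem_range, not_lt] at h
    rw [P.coeff_eq_zero_of_natDegree_lt (by omega)]
    simp

theorem exists_sep_bad (f : (𝓞 k)[X]) (hf : (f.map (algebraMap (𝓞 k) k)).Separable) :
    ∃ m : ℕ, m ≠ 0 ∧ ∀ (p : ℕ) [Fact p.Prime], ¬ p ∣ m → ∀ ψ : 𝓞 k →+* ZMod p,
      (f.map ψ).Separable := by
  obtain ⟨u, v, huv⟩ := hf
  obtain ⟨m₁, h₁, U, hU⟩ := clear_poly u
  obtain ⟨m₂, h₂, V, hV⟩ := clear_poly v
  have key : C (m₂ : 𝓞 k) * U * f + C (m₁ : 𝓞 k) * V * derivative f = C ((m₁ * m₂ : ℤ) : 𝓞 k) := by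
    apply Polynomial.map_injective (algebraMap (𝓞 k) k) RingOfIntegers.coe_injective
    simp only [Polynomial.map_add, Polynomial.map_mul, map_C, hU, hV, ← derivative_map]
    have e1 : algebraMap (𝓞 k) k (m₁ : 𝓞 k) = (m₁ : k) := map_intCast _ _
    have e2 : algebraMap (𝓞 k) k (m₂ : 𝓞 k) = (m₂ : k) := map_intCast _ _
    have e3 : algebraMap (𝓞 k) k ((m₁ * m₂ : ℤ) : 𝓞 k) = (m₁ : k) * (m₂ : k) := by
      rw [map_intCast]
      push_cast
      ring
    rw [e1, e2, e3, C_mul]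
    calc _ = C (m₁ : k) * C (m₂ : k) * (u * f.map (algebraMap (𝓞 k) k) +
          v * derivative (f.map (algebraMap (𝓞 k) k))) := by ring
      _ = _ := by rw [huv, mul_one]
  refine ⟨(m₁ * m₂).natAbs, by simpa using ⟨h₁, h₂⟩, ?_⟩
  intro p hp hpm ψ
  have h3 := congrArg (Polynomial.map ψ) key
  simp only [Polynomial.map_add, Polynomial.map_mul, map_C, ← derivative_map] at h3
  have e1 : ψ (m₁ : 𝓞 k) = (m₁ : ZMod p) := map_intCast _ _
  have e2 : ψ (m₂ : 𝓞 k) = (m₂ : ZMod p) := map_intCast _ _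
  have e3 : ψ ((m₁ * m₂ : ℤ) : 𝓞 k) = ((m₁ * m₂ : ℤ) : ZMod p) := map_intCast _ _
  rw [e1, e2, e3] at h3
  have h4 : ((m₁ * m₂ : ℤ) : ZMod p) ≠ 0 := by
    rw [Ne, ZMod.intCast_zmod_eq_zero_iff_dvd]
    intro h
    exact hpm (Int.natCast_dvd.1 h)
  refine ⟨C (((m₁ * m₂ : ℤ) : ZMod p)⁻¹) * (C (m₂ : ZMod p) * U.map ψ),
    C (((m₁ * m₂ : ℤ) : ZMod p)⁻¹) * (C (m₁ : ZMod p) * V.map ψ), ?_⟩
  calc _ = C (((m₁ * m₂ : ℤ) : ZMod p)⁻¹) * (C (m₂ : ZMod p) * U.map ψ * f.map ψ +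
        C (m₁ : ZMod p) * V.map ψ * derivative (f.map ψ)) := by ring
    _ = C (((m₁ * m₂ : ℤ) : ZMod p)⁻¹) * C ((m₁ * m₂ : ℤ) : ZMod p) := by rw [h3]
    _ = 1 := by rw [← C_mul, inv_mul_cancel₀ h4, C_1]

end sep

end

end Pool.Agent.H53SCD
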