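import Pool.Agent.Helper53.SCD.Final

/-!
# Almost all twists have no sections, II
-/

set_option autoImplicit false

universe u

open NumberField Polynomial MulAction Filter Topology IsDedekindDomain

namespace Pool.Agent.H53SCD

open Pool.Agent.Helper70.Art Pool.Agent.Helper91.Sect

noncomputable section

variable {k : Type u} [Field k] [NumberField k]

/-- A root modulo `P` of the normalisation gives a root of the polynomial. -/
theorem root_of_norm (f : (𝓞 k)[X]) (hdeg : 1 ≤ f.natDegree) (P : Ideal (𝓞 k))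
    [hP : P.IsMaximal] (hb : f.leadingCoeff ∉ P) (c : 𝓞 k)
    (hc : eval c (integralNormalization f) ∈ P) : ∃ x, eval x f ∈ P := by
  letI : Field (𝓞 k ⧸ P) := Ideal.Quotient.field P
  set φ := Ideal.Quotient.mk P with hφ
  have hb' : φ f.leadingCoeff ≠ 0 := fun h => hb (Ideal.Quotient.eq_zero_iff_mem.1 h)
  obtain ⟨x, hx⟩ := Ideal.Quotient.mk_surjective ((φ f.leadingCoeff)⁻¹ * φ c)
  have h1 := integralNormalization_eval₂_leadingCoeff_mul hdeg φ (φ x)
  have h2 : φ f.leadingCoeff * φ x = φ c := by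
    rw [hφ, hx, mul_inv_cancel_left₀ hb']
  rw [h2, eval₂_at_apply, eval₂_at_apply, Ideal.Quotient.eq_zero_iff_mem.2 hc] at h1
  refine ⟨x, Ideal.Quotient.eq_zero_iff_mem.1 ?_⟩
  have h3 := mul_eq_zero.1 h1.symm
  exact h3.resolve_left (pow_ne_zero _ hb')

theorem finite_contains (b : 𝓞 k) (hb : b ≠ 0) : {P : Ideal (𝓞 k) | P.IsMaximal ∧ b ∈ P}.Finite := by
  have h1 := Ideal.finite_factors (I := Ideal.span {b}) (by
    rw [Ne, Ideal.zero_eq_bot, Ideal.span_singleton_eq_bot]
    exact hb)
  refine (h1.image fun v : HeightOneSpectrum (𝓞 k) => v.asIdeal).subset ?_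
  rintro P ⟨hP, hbP⟩
  have hP0 : P ≠ ⊥ := by
    rintro rfl
    exact hb hbP
  exact ⟨⟨P, hP.isPrime, hP0⟩, Ideal.dvd_span_singleton.2 hbP, rfl⟩

theorem exists_data (f : (𝓞 k)[X]) (hdeg : 3 ≤ f.natDegree)
    (hroot : {P : Ideal (𝓞 k) | P.IsMaximal ∧ ∀ a : 𝓞 k, eval a f ∉ P}.Infinite)
    (bad : ℕ) (hbad : bad ≠ 0) :
    ∃ δ C₀ : ℝ, 0 < δ ∧ ∀ᶠ s in 𝓝[>] (1 : ℝ), δ * Real.log (1 / (s - 1)) - C₀ ≤
      ∑' p : Nat.Primes, Set.indicator (SS k (integralNormalization f) bad)
        (fun m : ℕ => (m : ℝ) ^ (-s)) (p : ℕ) := by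
  have hf0 : f ≠ 0 := by
    rintro rfl
    simp at hdeg
  set h := integralNormalization f with hh
  have hm : h.Monic := monic_integralNormalization hf0
  let L := (h.map (algebraMap (𝓞 k) k)).SplittingField
  have hL0 : CharZero L := charZero_of_injective_algebraMap (algebraMap k L).injective
  have hLfin : FiniteDimensional k L := inferInstance
  have hLnf : NumberField L :=
    { to_charZero := hL0
      to_finiteDimensional := by
        have : Module.Finite ℚ k := inferInstance
        exact Module.Finite.trans k L }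
  have hLgal : IsGalois k L := by
    have : Normal k L := Normal.of_isSplittingField (h.map (algebraMap (𝓞 k) k))
    exact ⟨⟩
  have hs : ((h.map (algebraMap (𝓞 k) k)).map (algebraMap k L)).Splits :=
    SplittingField.splits _
  refine SS_bound L h hm hs ?_ bad hbad
  by_contra hno
  push Not at hno
  apply hroot
  refine (finite_contains f.leadingCoeff (leadingCoeff_ne_zero.2 hf0)).subset ?_
  rintro P ⟨hPm, hPr⟩
  refine ⟨hPm, ?_⟩
  by_contra hb
  have hP0 : P ≠ ⊥ := by
    rintro rfl
    exact RingOfIntegers.not_isField k (Ring.isField_iff_maximal_bot.2 hPm)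
  obtain ⟨c, hc⟩ := root_mod (L := L) h hno P hP0
  obtain ⟨x, hx⟩ := root_of_norm f (by omega) P hb c hc
  exact hPr x hx

end

end Pool.Agent.H53SCD
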