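import Pool.Agent.Helper53.SCD.Tuples

/-!
# The density of the primes without fixed points
-/

set_option autoImplicit false

open NumberField Polynomial MulAction Filter Topology

namespace Pool.Agent.H53SCD

open Pool.Agent.Helper70.Art

noncomputable section

variable {k L : Type*} [Field k] [NumberField k] [Field L] [NumberField L] [Algebra k L]

instance instFactPrimes (p : Nat.Primes) : Fact (p : ℕ).Prime := ⟨p.2⟩

section dens

variable [IsGalois k L] {Ω : Type*} [Finite Ω] [MulAction (L ≃ₐ[k] L) Ω] (β : Ω → 𝓞 L)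

/-- The number of roots in the prime field. -/
def NN (p : Nat.Primes) (ψ : 𝓞 k →+* ZMod (p : ℕ)) : ℕ := Nat.card {ω : Ω // InP (p : ℕ) ψ (β ω)}

omit [IsGalois k L] [MulAction (L ≃ₐ[k] L) Ω] in
theorem NN_le (p : Nat.Primes) (ψ : 𝓞 k →+* ZMod (p : ℕ)) : NN β p ψ ≤ Nat.card Ω :=
  Nat.card_le_card_of_injective (fun z : {ω : Ω // InP (p : ℕ) ψ (β ω)} => z.1)
    Subtype.val_injective

/-- The moment of the permutation character. -/
def mj (k L : Type*) [Field k] [NumberField k] [Field L] [NumberField L] [Algebra k L]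
    (Ω : Type*) [MulAction (L ≃ₐ[k] L) Ω] (j : ℕ) : ℝ :=
  (∑ᶠ g : L ≃ₐ[k] L, (Nat.card {ω : Ω // g • ω = ω} : ℝ) ^ j) / Nat.card (L ≃ₐ[k] L)

theorem moment_j (hβ : Function.Injective β) (heq : ∀ (g : L ≃ₐ[k] L) y, β (g • y) = g • β y)
    (j : ℕ) : ∃ (a : Nat.Primes → ℝ) (N : ℕ) (C : ℝ), N ≠ 0 ∧
      (∀ p : Nat.Primes, ¬ (p : ℕ) ∣ N →
        ∑ ψ : 𝓞 k →+* ZMod (p : ℕ), (NN β p ψ : ℝ) ^ j = a p) ∧
      (∀ s : ℝ, 1 < s → Summable fun p : Nat.Primes => a p * (p : ℝ) ^ (-s)) ∧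
      ∀ᶠ s in 𝓝[>] (1 : ℝ),
        |∑' p : Nat.Primes, a p * (p : ℝ) ^ (-s) - mj k L Ω j * Real.log (1 / (s - 1))| ≤ C := by
  classical
  have := Fintype.ofFinite Ω
  have := Fintype.ofFinite (L ≃ₐ[k] L)
  have hQ := Fintype.ofFinite (orbitRel.Quotient (L ≃ₐ[k] L) (Fin j → Ω))
  obtain ⟨B, hB⟩ := exists_B β hβ j
  have heq' := th_equivariant β heq B j
  obtain ⟨N, hN0, hN⟩ := orbit_moment (th β B j) hB heq'
  choose C hC using fun o : orbitRel.Quotient (L ≃ₐ[k] L) (Fin j → Ω) =>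
    cntp_log (Ky k (th β B j o.out))
  refine ⟨fun p => ∑ o : orbitRel.Quotient (L ≃ₐ[k] L) (Fin j → Ω),
    (cnt (Ky k (th β B j o.out)) p : ℝ), N, ∑ o, C o, hN0, ?_, ?_, ?_⟩
  · intro p hp
    obtain ⟨h1, h2⟩ := hN (p : ℕ) hp
    have h7 : ∑ ψ : 𝓞 k →+* ZMod (p : ℕ), NN β p ψ ^ j =
        ∑ o : orbitRel.Quotient (L ≃ₐ[k] L) (Fin j → Ω), cnt (Ky k (th β B j o.out)) (p : ℕ) := by
      rw [← h2]
      refine Finset.sum_congr rfl fun ψ _ => ?_
      rw [tuple_card β heq B j (p : ℕ) ψ (h1 ψ)]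
      rfl
    have h8 : ((∑ ψ : 𝓞 k →+* ZMod (p : ℕ), NN β p ψ ^ j : ℕ) : ℝ) =
        ((∑ o : orbitRel.Quotient (L ≃ₐ[k] L) (Fin j → Ω),
          cnt (Ky k (th β B j o.out)) (p : ℕ) : ℕ) : ℝ) := congrArg Nat.cast h7
    push_cast at h8
    exact h8
  · intro s hs
    have h3 : ∀ p : Nat.Primes, (∑ o : orbitRel.Quotient (L ≃ₐ[k] L) (Fin j → Ω),
        (cnt (Ky k (th β B j o.out)) p : ℝ)) * (p : ℝ) ^ (-s) =
        ∑ o : orbitRel.Quotient (L ≃ₐ[k] L) (Fin j → Ω),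
        (cnt (Ky k (th β B j o.out)) p : ℝ) * (p : ℝ) ^ (-s) := fun p => Finset.sum_mul _ _ _
    simp_rw [h3]
    exact summable_sum fun o _ => summable_cntp (Ky k (th β B j o.out)) hs
  · have hall : ∀ᶠ s in 𝓝[>] (1 : ℝ), ∀ o : orbitRel.Quotient (L ≃ₐ[k] L) (Fin j → Ω),
        |∑' p : Nat.Primes, (cnt (Ky k (th β B j o.out)) p : ℝ) * (p : ℝ) ^ (-s) -
          Real.log (1 / (s - 1))| ≤ C o := eventually_all.2 hC
    filter_upwards [hall, self_mem_nhdsWithin] with s h hs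
    have hs1 : (1 : ℝ) < s := hs
    have h3 : ∀ p : Nat.Primes, (∑ o : orbitRel.Quotient (L ≃ₐ[k] L) (Fin j → Ω),
        (cnt (Ky k (th β B j o.out)) p : ℝ)) * (p : ℝ) ^ (-s) =
        ∑ o : orbitRel.Quotient (L ≃ₐ[k] L) (Fin j → Ω),
        (cnt (Ky k (th β B j o.out)) p : ℝ) * (p : ℝ) ^ (-s) := fun p => Finset.sum_mul _ _ _
    simp_rw [h3]
    rw [Summable.tsum_finsetSum fun o _ => summable_cntp (Ky k (th β B j o.out)) hs1]
    have h4 : mj k L Ω j = Fintype.card (orbitRel.Quotient (L ≃ₐ[k] L) (Fin j → Ω)) := by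
      unfold mj
      rw [finsum_eq_sum_of_fintype, Nat.card_eq_fintype_card]
      have h5 := burnside (k := k) (L := L) (Ω := Ω) j
      have h6 : (Fintype.card (L ≃ₐ[k] L) : ℝ) ≠ 0 := by
        exact_mod_cast Fintype.card_ne_zero
      rw [div_eq_iff h6]
      exact_mod_cast h5
    rw [h4, ← Finset.card_univ, ← nsmul_eq_mul, ← Finset.sum_const, ← Finset.sum_sub_distrib]
    exact (Finset.abs_sum_le_sum_abs _ _).trans (Finset.sum_le_sum fun o _ => h o)

/-- The polynomial that detects zero. -/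
def qd (d : ℕ) : ℝ[X] := ∏ i ∈ Finset.range d, (1 - C (1 / ((i : ℝ) + 1)) * X)

theorem qd_zero (d : ℕ) : (qd d).eval 0 = 1 := by
  unfold qd
  rw [eval_prod]
  simp

theorem qd_pos (d n : ℕ) (h1 : n ≠ 0) (h2 : n ≤ d) : (qd d).eval (n : ℝ) = 0 := by
  unfold qd
  rw [eval_prod]
  refine Finset.prod_eq_zero (Finset.mem_range.2 (show n - 1 < d by omega)) ?_
  have h3 : ((n - 1 : ℕ) : ℝ) + 1 = n := by
    have : n - 1 + 1 = n := by omega
    exact_mod_cast this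
  have h4 : (n : ℝ) ≠ 0 := by exact_mod_cast h1
  rw [h3]
  simp [h4]

theorem qd_eval (d n : ℕ) (h : n ≤ d) : (qd d).eval (n : ℝ) = if n = 0 then 1 else 0 := by
  split_ifs with h0
  · rw [h0, Nat.cast_zero, qd_zero]
  · exact qd_pos d n h0 h

/-- The number of `ψ` without fixed points. -/
def ZZ (p : Nat.Primes) : ℝ := ∑ ψ : 𝓞 k →+* ZMod (p : ℕ), if NN β p ψ = 0 then 1 else 0

/-- The proportion of elements without fixed points. -/
def d0 (k L : Type*) [Field k] [NumberField k] [Field L] [NumberField L] [Algebra k L]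
    (Ω : Type*) [MulAction (L ≃ₐ[k] L) Ω] : ℝ :=
  (Nat.card {g : L ≃ₐ[k] L // ∀ ω : Ω, g • ω ≠ ω} : ℝ) / Nat.card (L ≃ₐ[k] L)

omit [IsGalois k L] in
theorem sum_mj : ∑ j ∈ Finset.range ((qd (Nat.card Ω)).natDegree + 1),
    (qd (Nat.card Ω)).coeff j * mj k L Ω j = d0 k L Ω := by
  classical
  have := Fintype.ofFinite Ω
  have := Fintype.ofFinite (L ≃ₐ[k] L)
  unfold mj d0
  simp_rw [finsum_eq_sum_of_fintype, ← mul_div_assoc, Finset.mul_sum]
  rw [← Finset.sum_div, Finset.sum_comm]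
  congr 1
  have h1 : ∀ g : L ≃ₐ[k] L, ∑ j ∈ Finset.range ((qd (Nat.card Ω)).natDegree + 1),
      (qd (Nat.card Ω)).coeff j * (Nat.card {ω : Ω // g • ω = ω} : ℝ) ^ j =
      if ∀ ω : Ω, g • ω ≠ ω then 1 else 0 := by
    intro g
    rw [← eval_eq_sum_range, qd_eval]
    · have h2 : Nat.card {ω : Ω // g • ω = ω} = 0 ↔ ∀ ω : Ω, g • ω ≠ ω := by
        rw [Nat.card_eq_zero]
        constructor
        · rintro (h | h)
          · intro ω hω
            exact h.elim ⟨ω, hω⟩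
          · exact absurd h (not_infinite_iff_finite.2 inferInstance)
        · intro h
          left
          exact ⟨fun z => h z.1 z.2⟩
      simp only [h2]
    · exact Nat.card_le_card_of_injective (fun z : {ω : Ω // g • ω = ω} => z.1)
        Subtype.val_injective
  rw [Finset.sum_congr rfl fun g _ => h1 g, ← Finset.sum_filter, Finset.sum_const, nsmul_eq_mul,
    mul_one, Nat.card_eq_fintype_card, Fintype.card_subtype]

theorem density (hβ : Function.Injective β) (heq : ∀ (g : L ≃ₐ[k] L) y, β (g • y) = g • β y) :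
    ∃ C : ℝ, ∀ᶠ s in 𝓝[>] (1 : ℝ),
      (Summable fun p : Nat.Primes => ZZ (k := k) β p * (p : ℝ) ^ (-s)) ∧
      |∑' p : Nat.Primes, ZZ (k := k) β p * (p : ℝ) ^ (-s) - d0 k L Ω * Real.log (1 / (s - 1))| ≤ C := by
  classical
  choose a N C hN0 ha hsum hlog using moment_j β hβ heq
  set d := Nat.card Ω with hd
  set R := Finset.range ((qd d).natDegree + 1) with hR
  let D : Nat.Primes → ℝ := fun p => ∑ j ∈ R, (qd d).coeff j * a j p
  have hDZ : ∀ p : Nat.Primes, (∀ j ∈ R, ¬ (p : ℕ) ∣ N j) → ZZ (k := k) β p = D p := by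
    intro p hp
    have h1 : ∀ ψ : 𝓞 k →+* ZMod (p : ℕ), (if NN β p ψ = 0 then (1 : ℝ) else 0) =
        ∑ j ∈ R, (qd d).coeff j * (NN β p ψ : ℝ) ^ j := by
      intro ψ
      rw [hR, ← eval_eq_sum_range, qd_eval d _ (NN_le β p ψ)]
    change ∑ ψ : 𝓞 k →+* ZMod (p : ℕ), (if NN β p ψ = 0 then (1 : ℝ) else 0) = _
    rw [Finset.sum_congr rfl fun ψ _ => h1 ψ, Finset.sum_comm]
    refine Finset.sum_congr rfl fun j hj => ?_
    rw [← Finset.mul_sum, ha j p (hp j hj)]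
  -- the bad primes
  have hbadfin : {p : Nat.Primes | ∃ j ∈ R, (p : ℕ) ∣ N j}.Finite := by
    have h1 : {p : Nat.Primes | ∃ j ∈ R, (p : ℕ) ∣ N j} =
        ⋃ j ∈ R, {p : Nat.Primes | (p : ℕ) ∣ N j} := by
      ext p
      simp
    rw [h1]
    refine Set.Finite.biUnion R.finite_toSet fun j _ => ?_
    refine Set.Finite.of_injOn (f := fun p : Nat.Primes => (p : ℕ))
      (t := ((N j).divisors : Set ℕ)) ?_ Subtype.val_injective.injOn (Finset.finite_toSet _)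
    intro p hp
    rw [Finset.mem_coe, Nat.mem_divisors]
    exact ⟨hp, hN0 j⟩
  set bad := hbadfin.toFinset with hbad
  have hE : ∀ p : Nat.Primes, p ∉ bad → ZZ (k := k) β p - D p = 0 := by
    intro p hp
    rw [hbad, Set.Finite.mem_toFinset, Set.mem_setOf_eq] at hp
    push Not at hp
    rw [hDZ p hp, sub_self]
  have hDsum : ∀ s : ℝ, 1 < s → Summable fun p : Nat.Primes => D p * (p : ℝ) ^ (-s) := by
    intro s hs
    have h1 : ∀ p : Nat.Primes, D p * (p : ℝ) ^ (-s) =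
        ∑ j ∈ R, (qd d).coeff j * (a j p * (p : ℝ) ^ (-s)) := by
      intro p
      rw [Finset.sum_mul]
      exact Finset.sum_congr rfl fun j _ => by ring
    simp_rw [h1]
    exact summable_sum fun j _ => (hsum j s hs).mul_left _
  refine ⟨∑ j ∈ R, |(qd d).coeff j| * C j + ∑ p ∈ bad, |ZZ (k := k) β p - D p|, ?_⟩
  have hall : ∀ᶠ s in 𝓝[>] (1 : ℝ), ∀ j ∈ R,
      |∑' p : Nat.Primes, a j p * (p : ℝ) ^ (-s) - mj k L Ω j * Real.log (1 / (s - 1))| ≤ C j :=
    (Filter.eventually_all_finset R).2 fun j _ => hlog j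
  filter_upwards [hall, self_mem_nhdsWithin] with s h hs
  have hs1 : (1 : ℝ) < s := hs
  have hEs : HasSum (fun p : Nat.Primes => (ZZ (k := k) β p - D p) * (p : ℝ) ^ (-s))
      (∑ p ∈ bad, (ZZ (k := k) β p - D p) * (p : ℝ) ^ (-s)) := by
    refine hasSum_sum_of_ne_finset_zero fun p hp => ?_
    rw [hE p hp, zero_mul]
  have hZs : HasSum (fun p : Nat.Primes => ZZ (k := k) β p * (p : ℝ) ^ (-s))
      (∑' p : Nat.Primes, D p * (p : ℝ) ^ (-s) + ∑ p ∈ bad, (ZZ (k := k) β p - D p) * (p : ℝ) ^ (-s)) := by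
    have h1 := (hDsum s hs1).hasSum.add hEs
    refine h1.congr_fun ?_
    intro p
    ring
  refine ⟨hZs.summable, ?_⟩
  rw [hZs.tsum_eq]
  have h2 : ∑' p : Nat.Primes, D p * (p : ℝ) ^ (-s) =
      ∑ j ∈ R, (qd d).coeff j * ∑' p : Nat.Primes, a j p * (p : ℝ) ^ (-s) := by
    have h1 : ∀ p : Nat.Primes, D p * (p : ℝ) ^ (-s) =
        ∑ j ∈ R, (qd d).coeff j * (a j p * (p : ℝ) ^ (-s)) := by
      intro p
      rw [Finset.sum_mul]
      exact Finset.sum_congr rfl fun j _ => by ring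
    simp_rw [h1]
    rw [Summable.tsum_finsetSum fun j _ => (hsum j s hs1).mul_left _]
    exact Finset.sum_congr rfl fun j _ => tsum_mul_left
  have h3 : d0 k L Ω * Real.log (1 / (s - 1)) =
      ∑ j ∈ R, (qd d).coeff j * (mj k L Ω j * Real.log (1 / (s - 1))) := by
    rw [← sum_mj, Finset.sum_mul]
    exact Finset.sum_congr rfl fun j _ => by ring
  rw [h2, h3]
  have h4 : |∑ j ∈ R, (qd d).coeff j * ∑' p : Nat.Primes, a j p * (p : ℝ) ^ (-s) -
      ∑ j ∈ R, (qd d).coeff j * (mj k L Ω j * Real.log (1 / (s - 1)))| ≤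
      ∑ j ∈ R, |(qd d).coeff j| * C j := by
    rw [← Finset.sum_sub_distrib]
    refine (Finset.abs_sum_le_sum_abs _ _).trans (Finset.sum_le_sum fun j hj => ?_)
    rw [← mul_sub, abs_mul]
    exact mul_le_mul_of_nonneg_left (h j hj) (abs_nonneg _)
  have h5 : |∑ p ∈ bad, (ZZ (k := k) β p - D p) * (p : ℝ) ^ (-s)| ≤ ∑ p ∈ bad, |ZZ (k := k) β p - D p| := by
    refine (Finset.abs_sum_le_sum_abs _ _).trans (Finset.sum_le_sum fun p _ => ?_)
    rw [abs_mul]
    refine mul_le_of_le_one_right (abs_nonneg _) ?_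
    have hp1 : (1 : ℝ) ≤ (p : ℕ) := by exact_mod_cast p.2.one_le
    rw [abs_of_nonneg (by positivity)]
    exact Real.rpow_le_one_of_one_le_of_nonpos hp1 (by linarith)
  rw [abs_le] at h4 h5 ⊢
  constructor <;> linarith [h4.1, h4.2, h5.1, h5.2]

end dens

end

end Pool.Agent.H53SCD
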