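import Pool.Agent.Helper53.SCD.Roots
import Pool.Agent.Helper91.SCD.Sieve

/-!
# Almost all twists have no sections
-/

set_option autoImplicit false

universe u

open NumberField Polynomial MulAction Filter Topology

namespace Pool.Agent.H53SCD

open Pool.Agent.Helper70.Art Pool.Agent.Helper91.Sect

noncomputable section

variable {k : Type u} [Field k] [NumberField k]

theorem cnt_le (p : ℕ) [Fact p.Prime] : cnt k p ≤ Module.finrank ℚ k := by
  rw [← card_norm_prime k p]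
  refine le_trans ?_ (card_primesOver_le k p)
  rw [← Nat.card_eq_fintype_card]
  exact Nat.card_le_card_of_injective (fun z : {𝔮 : (sp p).primesOver (𝓞 k) //
    Ideal.absNorm 𝔮.1 = p} => z.1) Subtype.val_injective

section gal

variable (L : Type u) [Field L] [NumberField L] [Algebra k L] [IsGalois k L]
  (h : (𝓞 k)[X])

/-- The inclusion of the roots. -/
def be : Om L h → 𝓞 L := fun ω => ω

theorem no_root_of_NN (hm : h.Monic)
    (hs : ((h.map (algebraMap (𝓞 k) k)).map (algebraMap k L)).Splits) (p : Nat.Primes)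
    (ψ : 𝓞 k →+* ZMod (p : ℕ)) (hN : NN (be L h) p ψ = 0) (a : ZMod (p : ℕ)) :
    (h.map ψ).eval a ≠ 0 := by
  intro ha
  have hfin := Om_finite (L := L) h hm
  rw [eval_map] at ha
  have h1 := congrArg (io (p : ℕ)) ha
  rw [Polynomial.hom_eval₂, map_zero] at h1
  have h2 : (io (p : ℕ)).comp ψ = (extH L (p : ℕ) ψ).comp (algebraMap (𝓞 k) (𝓞 L)) := by
    ext b
    exact (extH_spec (L := L) (p : ℕ) ψ b).symm
  rw [h2] at h1
  obtain ⟨ω, hω⟩ := root_lift h hm hs (extH L (p : ℕ) ψ) _ h1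
  unfold NN at hN
  rw [Nat.card_eq_zero] at hN
  rcases hN with hN | hN
  · exact hN.elim ⟨ω, ⟨a, hω.symm⟩⟩
  · exact absurd hN (not_infinite_iff_finite.2 inferInstance)

theorem d0_pos (hfree : ∃ g : L ≃ₐ[k] L, ∀ ω : Om L h, g • ω ≠ ω) : 0 < d0 k L (Om L h) := by
  unfold d0
  obtain ⟨g, hg⟩ := hfree
  have h1 : 0 < Nat.card {g : L ≃ₐ[k] L // ∀ ω : Om L h, g • ω ≠ ω} := by
    have : Nonempty {g : L ≃ₐ[k] L // ∀ ω : Om L h, g • ω ≠ ω} := ⟨⟨g, hg⟩⟩
    exact Nat.card_pos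
  have h2 : 0 < Nat.card (L ≃ₐ[k] L) := Nat.card_pos
  positivity

/-- The primes that are used. -/
def SS (k : Type u) [Field k] [NumberField k] (h : (𝓞 k)[X]) (bad : ℕ) : Set ℕ :=
  {p | p.Prime ∧ ¬ p ∣ bad ∧ ∃ ψ : 𝓞 k →+* ZMod p, ∀ a, (h.map ψ).eval a ≠ 0}

theorem SS_bound (hm : h.Monic)
    (hs : ((h.map (algebraMap (𝓞 k) k)).map (algebraMap k L)).Splits)
    (hfree : ∃ g : L ≃ₐ[k] L, ∀ ω : Om L h, g • ω ≠ ω) (bad : ℕ) (hbad : bad ≠ 0) :
    ∃ δ C₀ : ℝ, 0 < δ ∧ ∀ᶠ s in 𝓝[>] (1 : ℝ), δ * Real.log (1 / (s - 1)) - C₀ ≤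
      ∑' p : Nat.Primes, Set.indicator (SS k h bad) (fun m : ℕ => (m : ℝ) ^ (-s)) (p : ℕ) := by
  classical
  have hfin := Om_finite (L := L) h hm
  obtain ⟨C, hC⟩ := density (k := k) (be L h) Subtype.val_injective
    (fun g ω => SubMulAction.val_smul g ω)
  have hd0 := d0_pos L h hfree
  set D : ℝ := (Module.finrank ℚ k : ℝ) with hD
  have hDpos : 0 < D := by
    rw [hD]
    exact_mod_cast Module.finrank_pos
  have hbadfin : {p : Nat.Primes | (p : ℕ) ∣ bad}.Finite := by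
    refine Set.Finite.of_injOn (f := fun p : Nat.Primes => (p : ℕ))
      (t := (bad.divisors : Set ℕ)) ?_ Subtype.val_injective.injOn (Finset.finite_toSet _)
    intro p hp
    rw [Finset.mem_coe, Nat.mem_divisors]
    exact ⟨hp, hbad⟩
  set B := hbadfin.toFinset with hB
  have hZ : ∀ p : Nat.Primes, ZZ (k := k) (be L h) p ≤ D := by
    intro p
    unfold ZZ
    calc ∑ ψ : 𝓞 k →+* ZMod (p : ℕ), (if NN (be L h) p ψ = 0 then (1 : ℝ) else 0)
        ≤ ∑ ψ : 𝓞 k →+* ZMod (p : ℕ), (1 : ℝ) :=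
          Finset.sum_le_sum fun ψ _ => by split_ifs <;> norm_num
      _ = (Nat.card (𝓞 k →+* ZMod (p : ℕ)) : ℝ) := by
          rw [Finset.sum_const, nsmul_eq_mul, mul_one, Finset.card_univ, Nat.card_eq_fintype_card]
      _ ≤ D := by
          rw [← cnt_eq_homs, hD]
          exact_mod_cast cnt_le (k := k) (p : ℕ)
  have hZ0 : ∀ p : Nat.Primes, p ∉ B → (p : ℕ) ∉ SS k h bad → ZZ (k := k) (be L h) p = 0 := by
    intro p hp hpS
    unfold ZZ
    refine Finset.sum_eq_zero fun ψ _ => ?_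
    rw [if_neg]
    intro hN
    apply hpS
    refine ⟨p.2, ?_, ψ, no_root_of_NN L h hm hs p ψ hN⟩
    intro h
    apply hp
    rw [hB, Set.Finite.mem_toFinset]
    exact h
  refine ⟨d0 k L (Om L h) / D, C / D + B.card, by positivity, ?_⟩
  filter_upwards [hC, self_mem_nhdsWithin] with s hs1 hs2
  have hs3 : (1 : ℝ) < s := hs2
  obtain ⟨hsum, hb⟩ := hs1
  have hind : Summable fun p : Nat.Primes =>
      Set.indicator (SS k h bad) (fun m : ℕ => (m : ℝ) ^ (-s)) (p : ℕ) := by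
    refine Summable.of_nonneg_of_le (fun p => Set.indicator_nonneg (fun m _ => by positivity) _)
      (fun p => ?_) (summable_rpow_primes hs3)
    exact Set.indicator_le_self' (fun m _ => by positivity) _
  have hBs : HasSum (fun p : Nat.Primes => if p ∈ B then (1 : ℝ) else 0) (B.card : ℝ) := by
    have h1 : ∑ p ∈ B, (if p ∈ B then (1 : ℝ) else 0) = B.card := by
      rw [Finset.sum_ite_mem, Finset.inter_self, Finset.sum_const, nsmul_eq_mul, mul_one]
    rw [← h1]
    exact hasSum_sum_of_ne_finset_zero fun p hp => if_neg hp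
  have hle : ∑' p : Nat.Primes, ZZ (k := k) (be L h) p * (p : ℝ) ^ (-s) ≤
      D * (∑' p : Nat.Primes, Set.indicator (SS k h bad) (fun m : ℕ => (m : ℝ) ^ (-s)) (p : ℕ) +
        B.card) := by
    rw [← hBs.tsum_eq, ← hind.tsum_add hBs.summable, ← tsum_mul_left]
    refine hsum.tsum_le_tsum (fun p => ?_) ((hind.add hBs.summable).mul_left D)
    have hp1 : (1 : ℝ) ≤ (p : ℕ) := by exact_mod_cast p.2.one_le
    have hr1 : (p : ℝ) ^ (-s) ≤ 1 := Real.rpow_le_one_of_one_le_of_nonpos hp1 (by linarith)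
    have hr0 : 0 ≤ (p : ℝ) ^ (-s) := by positivity
    have hind0 : 0 ≤ Set.indicator (SS k h bad) (fun m : ℕ => (m : ℝ) ^ (-s)) (p : ℕ) :=
      Set.indicator_nonneg (fun m _ => by positivity) _
    by_cases hpB : p ∈ B
    · rw [if_pos hpB]
      calc ZZ (k := k) (be L h) p * (p : ℝ) ^ (-s) ≤ D * 1 :=
            mul_le_mul (hZ p) hr1 hr0 hDpos.le
        _ ≤ _ := mul_le_mul_of_nonneg_left (by linarith) hDpos.le
    · rw [if_neg hpB, add_zero]
      by_cases hpS : (p : ℕ) ∈ SS k h bad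
      · rw [Set.indicator_of_mem hpS]
        exact mul_le_mul_of_nonneg_right (hZ p) hr0
      · rw [hZ0 p hpB hpS, zero_mul]
        exact mul_nonneg hDpos.le hind0
  rw [abs_le] at hb
  have h1 : d0 k L (Om L h) * Real.log (1 / (s - 1)) - C ≤
      D * (∑' p : Nat.Primes, Set.indicator (SS k h bad) (fun m : ℕ => (m : ℝ) ^ (-s)) (p : ℕ) +
        B.card) := by linarith [hb.1, hb.2]
  have h2 : (d0 k L (Om L h) * Real.log (1 / (s - 1)) - C) / D ≤
      ∑' p : Nat.Primes, Set.indicator (SS k h bad) (fun m : ℕ => (m : ℝ) ^ (-s)) (p : ℕ) +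
        B.card := by
    rw [div_le_iff₀ hDpos]
    linarith
  have h3 : (d0 k L (Om L h) * Real.log (1 / (s - 1)) - C) / D =
      d0 k L (Om L h) / D * Real.log (1 / (s - 1)) - C / D := by ring
  rw [h3] at h2
  linarith

end gal

end

end Pool.Agent.H53SCD
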