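import Pool.Agent.Helper53.SCD.Homs

/-!
# Homomorphisms of rings of integers to prime fields and conjugates
-/

set_option autoImplicit false

open NumberField Polynomial

namespace Pool.Agent.H53SCD

noncomputable section

variable {k L : Type*} [Field k] [NumberField k] [Field L] [NumberField L] [Algebra k L]

theorem smul_const (g : L ≃ₐ[k] L) (b : 𝓞 k) :
    g • algebraMap (𝓞 k) (𝓞 L) b = algebraMap (𝓞 k) (𝓞 L) b := by
  apply RingOfIntegers.ext
  exact g.commutes (b : k)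

/-- The field generated by an integral element. -/
abbrev Ky (k : Type*) {L : Type*} [Field k] [NumberField k] [Field L] [NumberField L] [Algebra k L]
    (y : 𝓞 L) : IntermediateField k L := IntermediateField.adjoin k {(y : L)}

/-- The generator as an element of the field. -/
def yF (k : Type*) {L : Type*} [Field k] [NumberField k] [Field L] [NumberField L] [Algebra k L]
    (y : 𝓞 L) : Ky k y := ⟨(y : L), IntermediateField.mem_adjoin_simple_self k _⟩

theorem yF_integral (y : 𝓞 L) : IsIntegral ℤ (yF k y) := by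
  have h : IsIntegral ℤ (y : L) := RingOfIntegers.isIntegral_coe y
  exact (isIntegral_algHom_iff ((Ky k y).val.restrictScalars ℤ) Subtype.val_injective).1 h

/-- The generator as an algebraic integer. -/
def yK (k : Type*) {L : Type*} [Field k] [NumberField k] [Field L] [NumberField L] [Algebra k L]
    (y : 𝓞 L) : 𝓞 (Ky k y) := ⟨yF k y, yF_integral y⟩

theorem algebraMap_yK (y : 𝓞 L) : algebraMap (𝓞 (Ky k y)) (𝓞 L) (yK k y) = y := by
  apply RingOfIntegers.ext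
  rfl

theorem clear_denoms (y : 𝓞 L) (x : 𝓞 (Ky k y)) :
    ∃ m : ℕ, m ≠ 0 ∧ ∃ P : (𝓞 k)[X], (m : 𝓞 (Ky k y)) * x = aeval (yK k y) P := by
  classical
  have h1 : ((x : Ky k y) : L) ∈ Algebra.adjoin k {(y : L)} := by
    rw [← IntermediateField.adjoin_simple_toSubalgebra_of_isAlgebraic
      (Algebra.IsAlgebraic.isAlgebraic (y : L))]
    exact (x : Ky k y).2
  rw [Algebra.adjoin_singleton_eq_range_aeval] at h1
  obtain ⟨P, hP⟩ := h1
  obtain ⟨m, hm0, hm⟩ := exists_integral_multiples ℤ ℚ (Finset.univ.image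
    fun i : Fin (P.natDegree + 1) => P.coeff i)
  have hc : ∀ i : ℕ, ∃ c : 𝓞 k, (c : k) = (m : k) * P.coeff i := by
    intro i
    by_cases hi : i < P.natDegree + 1
    · have h2 := hm (P.coeff i) (Finset.mem_image.2 ⟨⟨i, hi⟩, Finset.mem_univ _, rfl⟩)
      rw [zsmul_eq_mul] at h2
      exact ⟨⟨_, h2⟩, rfl⟩
    · refine ⟨0, ?_⟩
      rw [P.coeff_eq_zero_of_natDegree_lt (by omega)]
      simp
  choose c hc using hc
  let Q : (𝓞 k)[X] := ∑ i ∈ Finset.range (P.natDegree + 1), monomial i (c i)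
  have hQ : Q.map (algebraMap (𝓞 k) k) = C (m : k) * P := by
    ext i
    rw [coeff_map, coeff_C_mul]
    simp only [Q, finset_sum_coeff, coeff_monomial]
    rw [Finset.sum_ite_eq']
    split_ifs with h
    · exact hc i
    · rw [Finset.mem_range, not_lt] at h
      rw [P.coeff_eq_zero_of_natDegree_lt (by omega)]
      simp
  have key : (m : 𝓞 (Ky k y)) * x = aeval (yK k y) Q := by
    apply RingOfIntegers.ext
    apply Subtype.ext
    have e1 : (((aeval (yK k y) Q : 𝓞 (Ky k y)) : Ky k y) : L)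
        = aeval (y : L) (Q.map (algebraMap (𝓞 k) k)) := by
      rw [aeval_def, aeval_def, eval₂_map]
      have e2 := Polynomial.hom_eval₂ Q (algebraMap (𝓞 k) (𝓞 (Ky k y)))
        ((algebraMap (Ky k y) L).comp (algebraMap (𝓞 (Ky k y)) (Ky k y))) (yK k y)
      exact e2
    have e4 : ((((m : 𝓞 (Ky k y)) * x : 𝓞 (Ky k y)) : Ky k y) : L) = (m : L) * ((x : Ky k y) : L) := by
      push_cast
      rfl
    rw [e1, e4, hQ, map_mul, aeval_C]
    have e5 : aeval (y : L) P = ((x : Ky k y) : L) := hP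
    rw [e5]
    simp
  refine ⟨m.natAbs, by simpa using hm0, ?_⟩
  rcases Int.natAbs_eq m with h | h
  · refine ⟨Q, ?_⟩
    rw [← key]
    congr 1
    conv_rhs => rw [h]
    simp
  · refine ⟨-Q, ?_⟩
    rw [map_neg, ← key]
    conv_rhs => rw [h]
    simp

theorem exists_index (y : 𝓞 L) : ∃ M : ℕ, M ≠ 0 ∧ ∀ x : 𝓞 (Ky k y), ∃ P : (𝓞 k)[X],
    (M : 𝓞 (Ky k y)) * x = aeval (yK k y) P := by
  classical
  obtain ⟨s, hs⟩ := (Module.Finite.fg_top : (⊤ : Submodule ℤ (𝓞 (Ky k y))).FG)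
  choose m hm P hP using clear_denoms (k := k) y
  refine ⟨∏ x ∈ s, m x, Finset.prod_ne_zero_iff.2 fun x _ => hm x, fun x => ?_⟩
  have hx : x ∈ Submodule.span ℤ (s : Set (𝓞 (Ky k y))) := by rw [hs]; trivial
  induction hx using Submodule.span_induction with
  | mem x hx =>
    refine ⟨C ((∏ z ∈ s.erase x, m z : ℕ) : 𝓞 k) * P x, ?_⟩
    rw [map_mul, ← hP x, aeval_C, ← Finset.mul_prod_erase s m hx]
    push_cast
    ring
  | zero => exact ⟨0, by simp⟩
  | add a b _ _ ha hb =>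
    obtain ⟨P, hP⟩ := ha
    obtain ⟨Q, hQ⟩ := hb
    exact ⟨P + Q, by rw [mul_add, hP, hQ, map_add]⟩
  | smul c a _ ha =>
    obtain ⟨P, hP⟩ := ha
    refine ⟨C (c : 𝓞 k) * P, ?_⟩
    rw [map_mul, ← hP, aeval_C, zsmul_eq_mul]
    simp only [map_intCast]
    ring


/-- The algebraic closure of the prime field. -/
abbrev Fb (p : ℕ) [Fact p.Prime] : Type := AlgebraicClosure (ZMod p)

/-- The inclusion of the prime field. -/
abbrev io (p : ℕ) [Fact p.Prime] : ZMod p →+* Fb p := algebraMap (ZMod p) (Fb p)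

theorem io_inj (p : ℕ) [Fact p.Prime] : Function.Injective (io p) := (io p).injective

section count

variable (p : ℕ) [hp : Fact p.Prime] (y : 𝓞 L)
  (ψ : 𝓞 k →+* ZMod p) (Ψ : 𝓞 L →+* Fb p)
  (hΨ : ∀ a, Ψ (algebraMap (𝓞 k) (𝓞 L) a) = io p (ψ a))

/-- The homomorphisms above `ψ`. -/
abbrev Over (E : Type*) [Field E] [NumberField E] [Algebra k E] (p : ℕ) (ψ : 𝓞 k →+* ZMod p) :=
  {Φ : 𝓞 E →+* ZMod p // Φ.comp (algebraMap (𝓞 k) (𝓞 E)) = ψ}

include hΨ in
theorem root_of_hom [IsGalois k L] (Φ : Over (Ky k y) p ψ) :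
    ∃ g : L ≃ₐ[k] L, Ψ (g • y) = io p (Φ.1 (yK k y)) := by
  classical
  have := Fintype.ofFinite (L ≃ₐ[k] L)
  obtain ⟨Q, hQ⟩ := (Polynomial.mem_lifts _).1
    (Algebra.IsInvariant.charpoly_mem_lifts (𝓞 k) (𝓞 L) (L ≃ₐ[k] L) y)
  rw [MulSemiringAction.charpoly_eq] at hQ
  have h1 : (Q.map (algebraMap (𝓞 k) (𝓞 L))).eval y = 0 := by
    rw [hQ, eval_prod]
    refine Finset.prod_eq_zero (Finset.mem_univ 1) ?_
    simp
  have h2 : eval₂ (algebraMap (𝓞 k) (𝓞 (Ky k y))) (yK k y) Q = 0 := by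
    apply FaithfulSMul.algebraMap_injective (𝓞 (Ky k y)) (𝓞 L)
    rw [map_zero, Polynomial.hom_eval₂, algebraMap_yK]
    rw [eval_map] at h1
    exact h1
  have h3 := congrArg Φ.1 h2
  rw [map_zero, Polynomial.hom_eval₂, Φ.2] at h3
  have h4 := congrArg (io p) h3
  rw [map_zero, Polynomial.hom_eval₂] at h4
  have h5 : (io p).comp ψ = Ψ.comp (algebraMap (𝓞 k) (𝓞 L)) := by
    ext a
    exact (hΨ a).symm
  rw [h5, ← eval₂_map, hQ, ← eval_map, Polynomial.map_prod, eval_prod,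
    Finset.prod_eq_zero_iff] at h4
  obtain ⟨g, -, hg⟩ := h4
  refine ⟨g, ?_⟩
  rw [Polynomial.map_sub, map_X, map_C, eval_sub, eval_X, eval_C, sub_eq_zero] at hg
  exact hg.symm

theorem hom_injective {M : ℕ} (hM : ∀ x : 𝓞 (Ky k y), ∃ P : (𝓞 k)[X],
    (M : 𝓞 (Ky k y)) * x = aeval (yK k y) P) (hpM : ¬ p ∣ M) :
    Function.Injective fun Φ : Over (Ky k y) p ψ => Φ.1 (yK k y) := by
  intro Φ Φ' h
  apply Subtype.ext
  ext x
  obtain ⟨P, hP⟩ := hM x
  have h1 := congrArg Φ.1 hP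
  have h2 := congrArg Φ'.1 hP
  rw [map_mul, map_natCast, aeval_def, Polynomial.hom_eval₂, Φ.2] at h1
  rw [map_mul, map_natCast, aeval_def, Polynomial.hom_eval₂, Φ'.2] at h2
  have h3 : (Φ.1 (yK k y)) = Φ'.1 (yK k y) := h
  rw [h3, ← h2] at h1
  have h4 : (M : ZMod p) ≠ 0 := by
    rw [Ne, ZMod.natCast_eq_zero_iff]
    exact hpM
  exact mul_left_cancel₀ h4 h1

include hΨ in
theorem hom_surjective {M : ℕ} (hM : ∀ x : 𝓞 (Ky k y), ∃ P : (𝓞 k)[X],
    (M : 𝓞 (Ky k y)) * x = aeval (yK k y) P) (hpM : ¬ p ∣ M) (g : L ≃ₐ[k] L) (a : ZMod p)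
    (hg : Ψ (g • y) = io p a) : ∃ Φ : Over (Ky k y) p ψ, Φ.1 (yK k y) = a := by
  classical
  have h4 : (M : ZMod p) ≠ 0 := by
    rw [Ne, ZMod.natCast_eq_zero_iff]
    exact hpM
  -- the composite
  let Θ : 𝓞 (Ky k y) →+* Fb p := (Ψ.comp (MulSemiringAction.toRingHom (L ≃ₐ[k] L) (𝓞 L) g)).comp
    (algebraMap (𝓞 (Ky k y)) (𝓞 L))
  have hΘ : ∀ x, Θ x = Ψ (g • algebraMap (𝓞 (Ky k y)) (𝓞 L) x) := fun x => rfl
  have hΘy : Θ (yK k y) = io p a := by rw [hΘ, algebraMap_yK, hg]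
  have hΘk : Θ.comp (algebraMap (𝓞 k) (𝓞 (Ky k y))) = (io p).comp ψ := by
    ext b
    rw [RingHom.comp_apply, hΘ, RingHom.comp_apply, ← hΨ]
    congr 1
    have : algebraMap (𝓞 (Ky k y)) (𝓞 L) (algebraMap (𝓞 k) (𝓞 (Ky k y)) b)
        = algebraMap (𝓞 k) (𝓞 L) b := rfl
    rw [this, smul_const]
  have hran : ∀ x, ∃ b : ZMod p, io p b = Θ x := by
    intro x
    obtain ⟨P, hP⟩ := hM x
    have h1 := congrArg Θ hP
    rw [map_mul, map_natCast, aeval_def, Polynomial.hom_eval₂, hΘk, hΘy,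
      ← Polynomial.hom_eval₂] at h1
    refine ⟨(M : ZMod p)⁻¹ * eval₂ ψ a P, ?_⟩
    rw [map_mul, ← h1, map_inv₀, map_natCast, inv_mul_cancel_left₀]
    intro h0
    apply h4
    apply io_inj p
    rw [map_natCast, map_zero, h0]
  choose Φ hΦ using hran
  let Φ' : 𝓞 (Ky k y) →+* ZMod p :=
    { toFun := Φ
      map_one' := io_inj p (by rw [hΦ, map_one, map_one])
      map_zero' := io_inj p (by rw [hΦ, map_zero, map_zero])
      map_mul' := fun x z => io_inj p (by rw [hΦ, map_mul, map_mul, hΦ, hΦ])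
      map_add' := fun x z => io_inj p (by rw [hΦ, map_add, map_add, hΦ, hΦ]) }
  refine ⟨⟨Φ', ?_⟩, ?_⟩
  · ext b
    apply io_inj p
    change io p (Φ (algebraMap (𝓞 k) (𝓞 (Ky k y)) b)) = _
    rw [hΦ]
    exact DFunLike.congr_fun hΘk b
  · apply io_inj p
    change io p (Φ (yK k y)) = _
    rw [hΦ, hΘy]

include hΨ in
/-- The number of homomorphisms above `ψ` is the number of conjugates of `y` with values in the
prime field. -/
theorem card_over [IsGalois k L] {M : ℕ} (hM : ∀ x : 𝓞 (Ky k y), ∃ P : (𝓞 k)[X],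
    (M : 𝓞 (Ky k y)) * x = aeval (yK k y) P) (hpM : ¬ p ∣ M)
    (hinj : ∀ g g' : L ≃ₐ[k] L, Ψ (g • y) = Ψ (g' • y) → g • y = g' • y) :
    Nat.card (Over (Ky k y) p ψ) =
      Nat.card {z : MulAction.orbit (L ≃ₐ[k] L) y // ∃ a, io p a = Ψ z.1} := by
  have h1 : ∀ Φ : Over (Ky k y) p ψ,
      ∃ z : {z : MulAction.orbit (L ≃ₐ[k] L) y // ∃ a, io p a = Ψ z.1},
        Ψ z.1.1 = io p (Φ.1 (yK k y)) := by
    intro Φ
    obtain ⟨g, hg⟩ := root_of_hom p y ψ Ψ hΨ Φ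
    exact ⟨⟨⟨g • y, g, rfl⟩, ⟨_, hg.symm⟩⟩, hg⟩
  choose F hF using h1
  refine Nat.card_congr (Equiv.ofBijective F ⟨?_, ?_⟩)
  · intro Φ Φ' h
    apply hom_injective p y ψ hM hpM
    apply io_inj p
    rw [← hF, ← hF, h]
  · rintro ⟨⟨z, g, hg⟩, a, ha⟩
    have hgz : g • y = z := hg
    subst hgz
    obtain ⟨Φ, hΦ⟩ := hom_surjective p y ψ Ψ hΨ hM hpM g a ha.symm
    refine ⟨Φ, ?_⟩
    have h2 := hF Φ
    rw [hΦ, ha] at h2
    obtain ⟨g', hg'⟩ := (F Φ).1.2
    have hg'' : g' • y = (F Φ).1.1 := hg'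
    rw [← hg''] at h2
    have h3 := hinj g' g h2
    apply Subtype.ext
    apply Subtype.ext
    rw [← hg'', h3]

end count

end

end Pool.Agent.H53SCD
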