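import Pool.Agent.Helper53.SCD.Arith
import Pool.Agent.Helper10.Keep.SuperellipticTwists

/-!
# No sections of twists at one prime
-/

set_option autoImplicit false

universe u

open NumberField Polynomial IsDedekindDomain

open scoped WithZero

namespace Pool.Agent.H53SCD

open Pool.Agent.Helper70.Art Pool.Agent.Helper91.Sect

noncomputable section

section loc

variable (k : Type u) [Field k] [NumberField k] (p : ℕ) [hp : Fact p.Prime] (ψ : 𝓞 k →+* ZMod p)

/-- The valuation ring of `ψ`. -/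
abbrev OO : ValuationSubring k := HeightOneSpectrum.valuationSubringAtPrime k (vp k p ψ)

instance instLoc : IsLocalization.AtPrime (OO k p ψ) (RingHom.ker ψ)
    (hp := RingHom.ker_isPrime ψ) :=
  inferInstanceAs (IsLocalization (vp k p ψ).asIdeal.primeCompl (OO k p ψ))

/-- The reduction map. -/
def tau : 𝓞 k →+* IsLocalRing.ResidueField (OO k p ψ) :=
  (IsLocalRing.residue (OO k p ψ)).comp (algebraMap (𝓞 k) (OO k p ψ))

theorem tau_eq_zero (a : 𝓞 k) : tau k p ψ a = 0 ↔ ψ a = 0 := by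
  have := RingHom.ker_isPrime ψ
  rw [← RingHom.mem_ker (f := ψ), ← IsLocalization.AtPrime.to_map_mem_maximal_iff (OO k p ψ)
    (RingHom.ker ψ) a]
  exact IsLocalRing.residue_eq_zero_iff _

theorem tau_surjective : Function.Surjective (tau k p ψ) := by
  have := RingHom.ker_isPrime ψ
  intro z
  obtain ⟨w, rfl⟩ := IsLocalRing.residue_surjective z
  obtain ⟨⟨a, d⟩, hw⟩ := IsLocalization.surj (RingHom.ker ψ).primeCompl w
  have hd : ψ (d : 𝓞 k) ≠ 0 := fun h => d.2 h
  obtain ⟨e, he⟩ := ZMod.ringHom_surjective ψ ((ψ (d : 𝓞 k))⁻¹)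
  refine ⟨a * e, ?_⟩
  have h1 : tau k p ψ ((d : 𝓞 k) * e - 1) = 0 := by
    rw [tau_eq_zero, map_sub, map_mul, he, map_one, mul_inv_cancel₀ hd, sub_self]
  rw [map_sub, map_one, sub_eq_zero] at h1
  have h2 : IsLocalRing.residue (OO k p ψ) w * tau k p ψ (d : 𝓞 k) = tau k p ψ a := by
    have := congrArg (IsLocalRing.residue (OO k p ψ)) hw
    rw [map_mul] at this
    exact this
  rw [map_mul, ← h2, mul_assoc, ← map_mul, h1, mul_one]

/-- The identification of the residue fields. -/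
theorem exists_iso : ∃ e : ZMod p →+* IsLocalRing.ResidueField (OO k p ψ),
    e.comp ψ = tau k p ψ ∧ Function.Surjective e := by
  have hker : ∀ a ∈ RingHom.ker ψ, tau k p ψ a = 0 := fun a ha => (tau_eq_zero k p ψ a).2 ha
  refine ⟨ψ.liftOfSurjective (ZMod.ringHom_surjective ψ) ⟨tau k p ψ, hker⟩, ?_, ?_⟩
  · exact RingHom.liftOfRightInverse_comp _ _ _ _
  · intro z
    obtain ⟨a, ha⟩ := tau_surjective k p ψ z
    refine ⟨ψ a, ?_⟩
    rw [← ha]
    exact RingHom.liftOfRightInverse_comp_apply _ _ _ _ _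

theorem val_c (hd : ¬ p ∣ (discr k).natAbs) (c : ℤ) (hc1 : (p : ℤ) ∣ c) (hc2 : ¬ (p : ℤ) ^ 2 ∣ c) :
    (vp k p ψ).valuation k (c : k) = WithZero.exp (-1 : ℤ) := by
  obtain ⟨c', rfl⟩ := hc1
  have hc' : ¬ (p : ℤ) ∣ c' := by
    rintro ⟨c'', rfl⟩
    exact hc2 ⟨c'', by ring⟩
  have h1 : (((p : ℤ) * c' : ℤ) : k) = algebraMap (𝓞 k) k ((p : 𝓞 k) * (c' : 𝓞 k)) := by
    rw [map_mul, map_natCast, map_intCast]
    push_cast
    ring
  rw [h1, HeightOneSpectrum.valuation_of_algebraMap, map_mul]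
  have h2 : (vp k p ψ).intValuation (c' : 𝓞 k) = 1 := by
    rw [HeightOneSpectrum.intValuation_eq_one_iff]
    intro h
    have h3 : ψ (c' : 𝓞 k) = 0 := h
    rw [map_intCast, ZMod.intCast_zmod_eq_zero_iff_dvd] at h3
    exact hc' h3
  rw [h2, mul_one]
  have h3 : (vp k p ψ).intValuation (p : 𝓞 k) ≤ WithZero.exp (-((1 : ℕ) : ℤ)) := by
    rw [HeightOneSpectrum.intValuation_le_pow_iff_mem, pow_one]
    exact natCast_mem_ker k p ψ
  have h4 : ¬ (vp k p ψ).intValuation (p : 𝓞 k) ≤ WithZero.exp (-((2 : ℕ) : ℤ)) := by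
    rw [HeightOneSpectrum.intValuation_le_pow_iff_mem]
    exact not_mem_sq k p ψ hd
  have h5 : (vp k p ψ).intValuation (p : 𝓞 k) ≠ 0 := by
    intro h
    rw [h] at h4
    exact h4 zero_le'
  have hm := WithZero.exp_log h5
  set m := WithZero.log ((vp k p ψ).intValuation (p : 𝓞 k)) with hmdef
  rw [← hm] at h3 h4 ⊢
  rw [WithZero.exp_le_exp] at h3 h4
  congr 1
  push_cast at h3 h4
  omega

/-- A twist by an integer exactly divisible by a prime at which `f` has no root has no section. -/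
theorem no_section {K : Type u} [Field K] [Algebra k K] (hd : ¬ p ∣ (discr k).natAbs)
    {ℓ : ℕ} (hℓ : ℓ.Prime) (hpℓ : ¬ p ∣ ℓ) (f : (𝓞 k)[X]) (hlc : ψ f.leadingCoeff ≠ 0)
    (hsep : (f.map ψ).Separable) (hdvd : ℓ ∣ f.natDegree) (hdeg : 3 ≤ f.natDegree)
    (hroot : ∀ a, (f.map ψ).eval a ≠ 0) (c : ℤ) (hc1 : (p : ℤ) ∣ c) (hc2 : ¬ (p : ℤ) ^ 2 ∣ c)
    (x y : K) (hx : Transcendental k x)
    (hxy : (c : K) * y ^ ℓ = aeval x (f.map (algebraMap (𝓞 k) k)))
    (s : GaloisSection k K) : False := by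
  have hprime := RingHom.ker_isPrime ψ
  obtain ⟨e, he, hesurj⟩ := exists_iso k p ψ
  have hfin : Finite (IsLocalRing.ResidueField (OO k p ψ)) := Finite.of_surjective e hesurj
  have hfint := Fintype.ofFinite (IsLocalRing.ResidueField (OO k p ψ))
  let fO : (OO k p ψ)[X] := f.map (algebraMap (𝓞 k) (OO k p ψ))
  have hinj : Function.Injective (algebraMap (𝓞 k) (OO k p ψ)) := by
    intro a b hab
    apply RingOfIntegers.coe_injective
    exact congrArg (algebraMap (OO k p ψ) k) hab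
  have hfOdeg : fO.natDegree = f.natDegree := natDegree_map_eq_of_injective hinj f
  have hfOlc : fO.leadingCoeff = algebraMap (𝓞 k) (OO k p ψ) f.leadingCoeff :=
    leadingCoeff_map_of_injective hinj f
  have hred : fO.map (IsLocalRing.residue (OO k p ψ)) = (f.map ψ).map e := by
    rw [Polynomial.map_map, Polynomial.map_map, he]
    rfl
  have h1 := Pool.Agent.Results.MP_e66f84_ag.SuperellipticTwists.result (k := k) (K := K)
    (OO k p ψ) ⟨Finset.univ, by
      rw [Finset.coe_univ]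
      exact top_le_iff.1 fun z _ => Subfield.subset_closure (Set.mem_univ z)⟩ hℓ
    (by
      intro h
      have h2 : e (ℓ : ZMod p) = 0 := by rw [map_natCast, h]
      rw [map_eq_zero, ZMod.natCast_eq_zero_iff] at h2
      exact hpℓ h2)
    (c : k)
    (by
      intro d hcd
      have heq : (vp k p ψ).valuation k (c : k) = (vp k p ψ).valuation k (d ^ ℓ) := by
        have h3 := (Valuation.isEquiv_valuation_valuationSubring ((vp k p ψ).valuation k))
        rw [← HeightOneSpectrum.valuationSubringAtPrime_eq_valuationSubring] at h3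
        rw [h3.val_eq, map_pow]
        exact hcd
      rw [val_c k p ψ hd c hc1 hc2, map_pow] at heq
      have hne : (vp k p ψ).valuation k d ≠ 0 := by
        intro h
        rw [h, zero_pow hℓ.ne_zero] at heq
        exact WithZero.exp_ne_zero heq
      rw [← WithZero.exp_log hne, ← WithZero.exp_nsmul] at heq
      have h4 := congrArg WithZero.log heq
      rw [WithZero.log_exp, WithZero.log_exp, nsmul_eq_mul] at h4
      have h5 : (ℓ : ℤ) ∣ 1 := ⟨-(WithZero.log ((vp k p ψ).valuation k d)), by linarith⟩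
      have h6 : ℓ ∣ 1 := by exact_mod_cast h5
      exact hℓ.one_lt.ne' (Nat.dvd_one.1 h6))
    fO
    (by
      rw [hfOlc]
      exact (IsLocalization.AtPrime.isUnit_to_map_iff (OO k p ψ) (RingHom.ker ψ) _).2 hlc)
    (by rw [hred]; exact hsep.map)
    (by rw [hfOdeg]; exact hdvd) (by rw [hfOdeg]; exact hdeg) x y hx
    (by
      rw [map_intCast, hxy]
      congr 1
      rw [Polynomial.map_map]
      rfl)
    s
  obtain ⟨⟨a, ha⟩, -⟩ := h1
  obtain ⟨t, rfl⟩ := hesurj a
  rw [hred, eval_map, eval₂_at_apply, map_eq_zero] at ha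
  exact hroot t ha

end loc

end

end Pool.Agent.H53SCD
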