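import Pool.Agent.Helper53.SCD.HomCount

/-!
# Orbits and primes of degree one
-/

set_option autoImplicit false

open NumberField Polynomial MulAction

namespace Pool.Agent.H53SCD

open Pool.Agent.Helper70.Art

noncomputable section

instance instFintypeHoms (K : Type*) [Field K] [NumberField K] (p : ℕ) [Fact p.Prime] :
    Fintype (𝓞 K →+* ZMod p) := @Fintype.ofFinite _ (finite_homs K p)

variable {k L : Type*} [Field k] [NumberField k] [Field L] [NumberField L] [Algebra k L]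

/-- An extension of `ψ`. -/
def extH (L : Type*) [Field L] [NumberField L] [Algebra k L] (p : ℕ) [Fact p.Prime]
    (ψ : 𝓞 k →+* ZMod p) : 𝓞 L →+* Fb p :=
  (exists_hom_ext (A := 𝓞 k) (B := 𝓞 L) ((io p).comp ψ)).choose

theorem extH_spec (p : ℕ) [Fact p.Prime] (ψ : 𝓞 k →+* ZMod p) (a : 𝓞 k) :
    extH L p ψ (algebraMap (𝓞 k) (𝓞 L) a) = io p (ψ a) :=
  (exists_hom_ext (A := 𝓞 k) (B := 𝓞 L) ((io p).comp ψ)).choose_spec a

theorem card_homs_eq (E : Type*) [Field E] [NumberField E] [Algebra k E] (p : ℕ) [Fact p.Prime] :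
    cnt E p = ∑ ψ : 𝓞 k →+* ZMod p, Nat.card (Over E p ψ) := by
  rw [cnt_eq_homs]
  have : Finite (𝓞 E →+* ZMod p) := finite_homs E p
  rw [← Nat.card_sigma]
  exact (Nat.card_congr (Equiv.sigmaFiberEquiv
    (fun Φ : 𝓞 E →+* ZMod p => Φ.comp (algebraMap (𝓞 k) (𝓞 E))))).symm

/-- A nonzero algebraic integer is killed only at finitely many primes. -/
theorem exists_bad (z : 𝓞 L) (hz : z ≠ 0) : ∃ m : ℕ, m ≠ 0 ∧ ∀ p [Fact p.Prime], ¬ p ∣ m →
    ∀ Ψ : 𝓞 L →+* Fb p, Ψ z ≠ 0 := by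
  refine ⟨Ideal.absNorm (Ideal.span {z}), ?_, ?_⟩
  · rw [Ne, Ideal.absNorm_eq_zero_iff, Ideal.span_singleton_eq_bot]
    exact hz
  · intro p hp hpm Ψ h
    have h1 := Ideal.absNorm_mem (Ideal.span {z})
    obtain ⟨w, hw⟩ := Ideal.mem_span_singleton.1 h1
    have h2 := congrArg Ψ hw
    rw [map_natCast, map_mul, h, zero_mul] at h2
    apply hpm
    have h3 : CharP (Fb p) p := charP_of_injective_algebraMap (io_inj p) p
    exact (CharP.cast_eq_zero_iff (Fb p) p _).1 h2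

section orbits

variable [IsGalois k L] {Y : Type*} [Finite Y] [MulAction (L ≃ₐ[k] L) Y] (θ : Y → 𝓞 L)

/-- The values of an integer under the extension of `ψ` lie in the prime field. -/
def InP (p : ℕ) [Fact p.Prime] (ψ : 𝓞 k →+* ZMod p) (z : 𝓞 L) : Prop :=
  ∃ a, io p a = extH L p ψ z

theorem orbit_count (hθ : Function.Injective θ) (heq : ∀ (g : L ≃ₐ[k] L) y, θ (g • y) = g • θ y)
    (p : ℕ) [Fact p.Prime] (ψ : 𝓞 k →+* ZMod p) [Fintype (orbitRel.Quotient (L ≃ₐ[k] L) Y)] :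
    Nat.card {y : Y // InP p ψ (θ y)} = ∑ o : orbitRel.Quotient (L ≃ₐ[k] L) Y,
      Nat.card {z : orbit (L ≃ₐ[k] L) (θ o.out) // ∃ a, io p a = extH L p ψ z.1} := by
  have hfib : ∀ o : orbitRel.Quotient (L ≃ₐ[k] L) Y,
      Finite {z : orbit (L ≃ₐ[k] L) (θ o.out) // ∃ a, io p a = extH L p ψ z.1} := by
    intro o
    have : Finite (orbit (L ≃ₐ[k] L) (θ o.out)) := Finite.finite_mulAction_orbit _
    infer_instance
  rw [← Nat.card_sigma]
  symm
  refine Nat.card_congr (Equiv.ofBijective (fun z => ?_) ⟨?_, ?_⟩)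
  · refine ⟨z.2.1.2.choose • z.1.out, ?_⟩
    have h1 : z.2.1.2.choose • θ z.1.out = z.2.1.1 := z.2.1.2.choose_spec
    unfold InP
    rw [heq, h1]
    exact z.2.2
  · intro z z' h
    have h1 : z.2.1.2.choose • θ z.1.out = z.2.1.1 := z.2.1.2.choose_spec
    have h1' : z'.2.1.2.choose • θ z'.1.out = z'.2.1.1 := z'.2.1.2.choose_spec
    have h2 : z.2.1.2.choose • z.1.out = z'.2.1.2.choose • z'.1.out := congrArg Subtype.val h
    have h3 : z.1 = z'.1 := by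
      rw [← z.1.out_eq', ← z'.1.out_eq']
      apply Quotient.sound'
      rw [orbitRel_apply]
      refine ⟨(z.2.1.2.choose)⁻¹ * z'.2.1.2.choose, ?_⟩
      change ((z.2.1.2.choose)⁻¹ * z'.2.1.2.choose) • z'.1.out = z.1.out
      rw [mul_smul, ← h2, inv_smul_smul]
    obtain ⟨o, ⟨⟨w, hw⟩, hz⟩⟩ := z
    obtain ⟨o', ⟨⟨w', hw'⟩, hz'⟩⟩ := z'
    dsimp only at h3
    subst h3
    have h4 : w = w' := by
      have e1 : w = hw.choose • θ o.out := h1.symm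
      have e2 : w' = hw'.choose • θ o.out := h1'.symm
      rw [e1, e2, ← heq, ← heq]
      exact congrArg θ h2
    subst h4
    rfl
  · rintro ⟨y, hy⟩
    have h1 : (Quotient.mk'' y : orbitRel.Quotient (L ≃ₐ[k] L) Y).out ∈ orbit (L ≃ₐ[k] L) y :=
      orbitRel_apply.1 (Quotient.mk_out' (s₁ := orbitRel (L ≃ₐ[k] L) Y) y)
    obtain ⟨g, hg⟩ := h1
    have hg' : g • y = (Quotient.mk'' y : orbitRel.Quotient (L ≃ₐ[k] L) Y).out := hg
    have hmem : θ y ∈ orbit (L ≃ₐ[k] L)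
        (θ (Quotient.mk'' y : orbitRel.Quotient (L ≃ₐ[k] L) Y).out) := by
      refine ⟨g⁻¹, ?_⟩
      change g⁻¹ • θ _ = θ y
      rw [← heq, ← hg', inv_smul_smul]
    refine ⟨⟨Quotient.mk'' y, ⟨⟨θ y, hmem⟩, hy⟩⟩, ?_⟩
    apply Subtype.ext
    apply hθ
    rw [heq]
    exact hmem.choose_spec

theorem orbit_moment (hθ : Function.Injective θ)
    (heq : ∀ (g : L ≃ₐ[k] L) y, θ (g • y) = g • θ y)
    [Fintype (orbitRel.Quotient (L ≃ₐ[k] L) Y)] :
    ∃ N : ℕ, N ≠ 0 ∧ ∀ p [Fact p.Prime], ¬ p ∣ N →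
      (∀ (ψ : 𝓞 k →+* ZMod p) y y', extH L p ψ (θ y) = extH L p ψ (θ y') → y = y') ∧
      ∑ ψ : 𝓞 k →+* ZMod p, Nat.card {y : Y // InP p ψ (θ y)} =
        ∑ o : orbitRel.Quotient (L ≃ₐ[k] L) Y, cnt (Ky k (θ o.out)) p := by
  classical
  have := Fintype.ofFinite Y
  choose M hM0 hM using fun o : orbitRel.Quotient (L ≃ₐ[k] L) Y =>
    exists_index (k := k) (θ o.out)
  have hb : ∀ z : Y × Y, ∃ m : ℕ, m ≠ 0 ∧ (z.1 ≠ z.2 → ∀ p [Fact p.Prime], ¬ p ∣ m →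
      ∀ Ψ : 𝓞 L →+* Fb p, Ψ (θ z.1 - θ z.2) ≠ 0) := by
    intro z
    by_cases h : z.1 = z.2
    · exact ⟨1, one_ne_zero, fun h' => absurd h h'⟩
    · obtain ⟨m, hm, hm'⟩ := exists_bad (θ z.1 - θ z.2) (sub_ne_zero.2 fun h' => h (hθ h'))
      exact ⟨m, hm, fun _ => hm'⟩
  choose b hb0 hb using hb
  refine ⟨(∏ o, M o) * ∏ z, b z, mul_ne_zero (Finset.prod_ne_zero_iff.2 fun o _ => hM0 o)
    (Finset.prod_ne_zero_iff.2 fun z _ => hb0 z), ?_⟩
  intro p hp hpN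
  have hpM : ∀ o, ¬ p ∣ M o := fun o h => hpN ((h.trans (Finset.dvd_prod_of_mem _
    (Finset.mem_univ o))).mul_right _)
  have hpb : ∀ z, ¬ p ∣ b z := fun z h => hpN ((h.trans (Finset.dvd_prod_of_mem _
    (Finset.mem_univ z))).mul_left _)
  have hinj : ∀ (ψ : 𝓞 k →+* ZMod p) y y', extH L p ψ (θ y) = extH L p ψ (θ y') → y = y' := by
    intro ψ y y' h
    by_contra hne
    refine hb (y, y') hne p (hpb _) (extH L p ψ) ?_
    rw [map_sub, h, sub_self]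
  refine ⟨hinj, ?_⟩
  have h1 : ∀ o : orbitRel.Quotient (L ≃ₐ[k] L) Y, cnt (Ky k (θ o.out)) p =
      ∑ ψ : 𝓞 k →+* ZMod p,
        Nat.card {z : orbit (L ≃ₐ[k] L) (θ o.out) // ∃ a, io p a = extH L p ψ z.1} := by
    intro o
    rw [card_homs_eq (k := k) (Ky k (θ o.out)) p]
    refine Finset.sum_congr rfl fun ψ _ => ?_
    refine card_over p (θ o.out) ψ (extH L p ψ) (extH_spec p ψ) (hM o) (hpM o) ?_
    intro g g' h
    rw [← heq, ← heq] at h ⊢
    rw [hinj ψ _ _ h]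
  rw [Finset.sum_congr rfl fun o _ => h1 o, Finset.sum_comm]
  exact Finset.sum_congr rfl fun ψ _ => orbit_count θ hθ heq p ψ

end orbits

end

end Pool.Agent.H53SCD
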