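import Pool.Agent.Helper53.SCD.Local

/-!
# The Galois set of roots and the existence of a derangement
-/

set_option autoImplicit false

open NumberField Polynomial MulAction Filter Topology

open scoped Pointwise

namespace Pool.Agent.H53SCD

open Pool.Agent.Helper70.Art

noncomputable section

/-- The elements fixed by the Frobenius map. -/
theorem mem_range_of_pow {E F : Type*} [Field E] [Finite E] [Field F] (i : E →+* F) (t : F)
    (ht : t ^ Nat.card E = t) : ∃ a, i a = t := by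
  classical
  have := Fintype.ofFinite E
  by_contra hne
  push Not at hne
  have hq : 1 < Nat.card E := Finite.one_lt_card
  have hP0 : (X ^ Nat.card E - X : F[X]) ≠ 0 := FiniteField.X_pow_card_sub_X_ne_zero F hq
  have hsub : (insert t (Finset.univ.image i)) ⊆ (X ^ Nat.card E - X : F[X]).roots.toFinset := by
    intro z hz
    rw [Multiset.mem_toFinset, mem_roots hP0, IsRoot.def, eval_sub, eval_pow, eval_X, sub_eq_zero]
    rw [Finset.mem_insert, Finset.mem_image] at hz
    rcases hz with rfl | ⟨a, -, rfl⟩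
    · exact ht
    · rw [← map_pow, Nat.card_eq_fintype_card, FiniteField.pow_card]
  have h1 := Finset.card_le_card hsub
  have h2 : t ∉ Finset.univ.image i := by
    rw [Finset.mem_image]
    rintro ⟨a, -, ha⟩
    exact hne a ha
  rw [Finset.card_insert_of_notMem h2, Finset.card_image_of_injective _ i.injective,
    Finset.card_univ, ← Nat.card_eq_fintype_card] at h1
  have h3 := (Multiset.toFinset_card_le (X ^ Nat.card E - X : F[X]).roots).trans (card_roots' _)
  rw [FiniteField.X_pow_card_sub_X_natDegree_eq F hq] at h3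
  omega

section roots

variable {k L : Type*} [Field k] [NumberField k] [Field L] [NumberField L] [Algebra k L]
  (h : (𝓞 k)[X])

instance instSMulComm : SMulCommClass (L ≃ₐ[k] L) (𝓞 k) (𝓞 L) :=
  ⟨fun g a z => by rw [Algebra.smul_def, Algebra.smul_def, smul_mul', smul_const]⟩

/-- The roots of `h`. -/
def Om (L : Type*) [Field L] [NumberField L] [Algebra k L] (h : (𝓞 k)[X]) :
    SubMulAction (L ≃ₐ[k] L) (𝓞 L) where
  carrier := {z | eval₂ (algebraMap (𝓞 k) (𝓞 L)) z h = 0}
  smul_mem' := by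
    intro g z hz
    have h1 := congrArg (MulSemiringAction.toRingHom (L ≃ₐ[k] L) (𝓞 L) g) hz
    rw [Polynomial.hom_eval₂, map_zero] at h1
    have h2 : (MulSemiringAction.toRingHom (L ≃ₐ[k] L) (𝓞 L) g).comp
        (algebraMap (𝓞 k) (𝓞 L)) = algebraMap (𝓞 k) (𝓞 L) := by
      ext a
      exact congrArg _ (smul_const g a)
    rw [h2] at h1
    exact h1

theorem Om_finite (hm : h.Monic) : Finite (Om L h) := by
  classical
  refine Set.Finite.subset (Finset.finite_toSet
    ((h.map (algebraMap (𝓞 k) (𝓞 L))).roots.toFinset)) ?_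
  intro z hz
  rw [Finset.mem_coe, Multiset.mem_toFinset, mem_roots (hm.map _).ne_zero, IsRoot.def, eval_map]
  exact hz

/-- All roots in fields come from `Om`. -/
theorem root_lift (hm : h.Monic) (hs : ((h.map (algebraMap (𝓞 k) k)).map (algebraMap k L)).Splits)
    {F : Type*} [Field F] (Φ : 𝓞 L →+* F) (t : F)
    (ht : eval₂ (Φ.comp (algebraMap (𝓞 k) (𝓞 L))) t h = 0) :
    ∃ ω : Om L h, Φ (ω : 𝓞 L) = t := by
  classical
  set P := (h.map (algebraMap (𝓞 k) k)).map (algebraMap k L) with hP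
  have hPm : P.Monic := (hm.map _).map _
  have hmap : P = (h.map (algebraMap (𝓞 k) (𝓞 L))).map (algebraMap (𝓞 L) L) := by
    rw [hP, Polynomial.map_map, Polynomial.map_map]
    rfl
  have hint : ∀ r ∈ P.roots, IsIntegral ℤ r := by
    intro r hr
    have h1 : eval₂ (algebraMap (𝓞 L) L) r (h.map (algebraMap (𝓞 k) (𝓞 L))) = 0 := by
      rw [← eval_map, ← hmap]
      exact (mem_roots'.1 hr).2
    have h2 : IsIntegral (𝓞 L) r := ⟨_, hm.map _, h1⟩
    exact isIntegral_trans r h2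
  choose toO htoO using fun r : {r // r ∈ P.roots} =>
    (show ∃ z : 𝓞 L, algebraMap (𝓞 L) L z = r.1 from ⟨⟨r.1, hint r.1 r.2⟩, rfl⟩)
  let m : Multiset (𝓞 L) := P.roots.attach.map toO
  have hm1 : m.map (algebraMap (𝓞 L) L) = P.roots := by
    change (P.roots.attach.map toO).map (algebraMap (𝓞 L) L) = _
    rw [Multiset.map_map]
    have : (algebraMap (𝓞 L) L : 𝓞 L → L) ∘ toO = Subtype.val := funext htoO
    rw [this]
    exact Multiset.attach_map_val _
  have hprod : h.map (algebraMap (𝓞 k) (𝓞 L)) = (m.map fun z => X - C z).prod := by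
    apply Polynomial.map_injective (algebraMap (𝓞 L) L) RingOfIntegers.coe_injective
    rw [← hmap, Polynomial.map_multiset_prod, Multiset.map_map]
    conv_lhs => rw [hs.eq_prod_roots_of_monic hPm, ← hm1, Multiset.map_map]
    congr 1
    refine Multiset.map_congr rfl fun z _ => ?_
    simp
  have h3 : eval t ((h.map (algebraMap (𝓞 k) (𝓞 L))).map Φ) = 0 := by
    rw [Polynomial.map_map, eval_map]
    exact ht
  rw [hprod, Polynomial.map_multiset_prod, Multiset.map_map, eval_multiset_prod,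
    Multiset.prod_eq_zero_iff, Multiset.mem_map] at h3
  obtain ⟨q, hq, hq0⟩ := h3
  obtain ⟨z, hz, rfl⟩ := Multiset.mem_map.1 hq
  rw [Function.comp_apply, Polynomial.map_sub, map_X, map_C, eval_sub, eval_X, eval_C,
    sub_eq_zero] at hq0
  refine ⟨⟨z, ?_⟩, hq0.symm⟩
  change eval₂ (algebraMap (𝓞 k) (𝓞 L)) z h = 0
  rw [← eval_map, hprod, eval_multiset_prod, Multiset.prod_eq_zero_iff, Multiset.mem_map]
  exact ⟨X - C z, Multiset.mem_map.2 ⟨z, hz, rfl⟩, by simp⟩

/-- If every element of the Galois group fixes a root then there are roots modulo all primes. -/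
theorem root_mod [IsGalois k L] (hfix : ∀ g : L ≃ₐ[k] L, ∃ ω : Om L h, g • ω = ω)
    (P : Ideal (𝓞 k)) [hPmax : P.IsMaximal] (hP0 : P ≠ ⊥) :
    ∃ c : 𝓞 k, eval c h ∈ P := by
  classical
  obtain ⟨Q, hQmax, hQP⟩ := Ideal.exists_maximal_ideal_liesOver_of_isIntegral (S := 𝓞 L) P
  have hQ0 : Q ≠ ⊥ := by
    rintro rfl
    apply hP0
    rw [hQP.over]
    exact Ideal.comap_bot_of_injective _ (FaithfulSMul.algebraMap_injective (𝓞 k) (𝓞 L))
  have hfinQ : Finite (𝓞 L ⧸ Q) := Ideal.finiteQuotientOfFreeOfNeBot Q hQ0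
  have hfinP : Finite (𝓞 k ⧸ P) := Ideal.finiteQuotientOfFreeOfNeBot P hP0
  obtain ⟨σ, hσ⟩ := IsArithFrobAt.exists_of_isInvariant (𝓞 k) (L ≃ₐ[k] L) Q
  obtain ⟨ω, hω⟩ := hfix σ
  have h1 := hσ (ω : 𝓞 L)
  have h2 : (MulSemiringAction.toAlgHom (𝓞 k) (𝓞 L) σ) (ω : 𝓞 L) = (ω : 𝓞 L) := by
    have := congrArg (fun z : Om L h => (z : 𝓞 L)) hω
    exact this
  rw [h2] at h1
  have hPQ : Q.under (𝓞 k) = P := hQP.over.symm
  rw [hPQ] at h1
  letI : Field (𝓞 k ⧸ P) := Ideal.Quotient.field P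
  letI : Field (𝓞 L ⧸ Q) := Ideal.Quotient.field Q
  have h3 : (Ideal.Quotient.mk Q (ω : 𝓞 L)) ^ Nat.card (𝓞 k ⧸ P) =
      Ideal.Quotient.mk Q (ω : 𝓞 L) := by
    rw [← map_pow]
    exact ((Ideal.Quotient.eq).2 h1).symm
  obtain ⟨a, ha⟩ := mem_range_of_pow (algebraMap (𝓞 k ⧸ P) (𝓞 L ⧸ Q)) _ h3
  obtain ⟨c, rfl⟩ := Ideal.Quotient.mk_surjective a
  refine ⟨c, ?_⟩
  rw [Ideal.Quotient.algebraMap_mk_of_liesOver] at ha
  have h4 : eval₂ (algebraMap (𝓞 k) (𝓞 L)) (ω : 𝓞 L) h = 0 := ω.2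
  have h5 := congrArg (Ideal.Quotient.mk Q) h4
  rw [Polynomial.hom_eval₂, map_zero, ← ha, ← Polynomial.hom_eval₂, eval₂_at_apply] at h5
  rw [Ideal.Quotient.eq_zero_iff_mem] at h5
  exact (Ideal.mem_of_liesOver Q P _).2 h5

end roots

end

end Pool.Agent.H53SCD
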