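import Pool.Agent.Helper70.Art.LFun

/-!
# The primes of degree one of a number field

`∑_p a(p) p^{-s} = log (1 / (s - 1)) + O(1)` as `s → 1+`, where `a(p)` is the number of ideals of
norm `p` of a number field.
-/

set_option autoImplicit false

open Filter Topology IsDedekindDomain NumberField Ideal

namespace Pool.Agent.H53SCD

open Pool.Agent.Helper70.Art

noncomputable section

section one

variable (K : Type*) [Field K] [NumberField K]

/-- The term of a prime. -/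
def xq (s : ℝ) (𝔮 : HeightOneSpectrum (𝓞 K)) : ℝ := ((absNorm 𝔮.asIdeal : ℕ) : ℝ) ^ (-s)

theorem two_le_norm (𝔮 : HeightOneSpectrum (𝓞 K)) : 2 ≤ absNorm 𝔮.asIdeal := by
  have h0 : absNorm 𝔮.asIdeal ≠ 0 := absNorm_eq_zero_iff.not.2 𝔮.ne_bot
  have h1 : absNorm 𝔮.asIdeal ≠ 1 := absNorm_eq_one_iff.not.2 𝔮.isPrime.ne_top
  omega

theorem xq_pos (s : ℝ) (𝔮 : HeightOneSpectrum (𝓞 K)) : 0 < xq K s 𝔮 := by
  have := two_le_norm K 𝔮
  exact Real.rpow_pos_of_pos (by positivity) _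

theorem xq_le_half {s : ℝ} (hs : 1 ≤ s) (𝔮 : HeightOneSpectrum (𝓞 K)) : xq K s 𝔮 ≤ 1 / 2 := by
  have h2 := two_le_norm K 𝔮
  have h2' : (2 : ℝ) ≤ (absNorm 𝔮.asIdeal : ℕ) := by exact_mod_cast h2
  unfold xq
  calc ((absNorm 𝔮.asIdeal : ℕ) : ℝ) ^ (-s) ≤ ((absNorm 𝔮.asIdeal : ℕ) : ℝ) ^ (-1 : ℝ) :=
        Real.rpow_le_rpow_of_exponent_le (by linarith) (by linarith)
    _ = ((absNorm 𝔮.asIdeal : ℕ) : ℝ)⁻¹ := by rw [Real.rpow_neg_one]
    _ ≤ 1 / 2 := by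
        rw [one_div]
        exact inv_anti₀ (by norm_num) h2'

theorem xq_anti {s t : ℝ} (h : s ≤ t) (𝔮 : HeightOneSpectrum (𝓞 K)) : xq K t 𝔮 ≤ xq K s 𝔮 := by
  have h2 := two_le_norm K 𝔮
  have h2' : (2 : ℝ) ≤ (absNorm 𝔮.asIdeal : ℕ) := by exact_mod_cast h2
  exact Real.rpow_le_rpow_of_exponent_le (by linarith) (by linarith)

theorem norm_term (s : ℝ) (𝔮 : HeightOneSpectrum (𝓞 K)) :
    ‖((absNorm 𝔮.asIdeal : ℕ) : ℂ) ^ (-(s : ℂ))‖ = xq K s 𝔮 := by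
  have h2 := two_le_norm K 𝔮
  unfold xq
  rw [Complex.norm_natCast_cpow_of_pos (by omega)]
  simp

theorem term_real (s : ℝ) (𝔮 : HeightOneSpectrum (𝓞 K)) :
    ((absNorm 𝔮.asIdeal : ℕ) : ℂ) ^ (-(s : ℂ)) = (xq K s 𝔮 : ℂ) := by
  unfold xq
  rw [Complex.ofReal_cpow (by positivity)]
  simp

theorem summable_xq {s : ℝ} (hs : 1 < s) : Summable (xq K s) := by
  have := summable_primes K (s : ℂ) (by simpa using hs)
  simpa only [norm_term] using this

theorem neglog_bound {x : ℝ} (h0 : 0 < x) (h1 : x ≤ 1 / 2) :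
    x ≤ -Real.log (1 - x) ∧ -Real.log (1 - x) ≤ x + 2 * x ^ 2 := by
  constructor
  · have := Real.log_le_sub_one_of_pos (show (0:ℝ) < 1 - x by linarith)
    linarith
  · rw [← Real.log_inv]
    have h2 : (1 - x)⁻¹ ≤ Real.exp (x + 2 * x ^ 2) := by
      have h4 : x + 2 * x ^ 2 + 1 ≤ Real.exp (x + 2 * x ^ 2) := Real.add_one_le_exp _
      refine le_trans ?_ h4
      rw [inv_le_iff_one_le_mul₀ (by linarith)]
      nlinarith [sq_nonneg x, mul_pos h0 h0, mul_nonneg (sq_nonneg x) (by linarith : 0 ≤ 1 - 2 * x)]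
    exact (Real.log_le_iff_le_exp (inv_pos.2 (by linarith))).2 h2

theorem summable_neglog {s : ℝ} (hs : 1 < s) :
    Summable fun 𝔮 : HeightOneSpectrum (𝓞 K) => -Real.log (1 - xq K s 𝔮) := by
  refine Summable.of_nonneg_of_le (fun 𝔮 => ?_) (fun 𝔮 => ?_) ((summable_xq K hs).mul_left 2)
  · exact (xq_pos K s 𝔮).le.trans (neglog_bound (xq_pos K s 𝔮) (xq_le_half K hs.le 𝔮)).1
  · have h1 := (neglog_bound (xq_pos K s 𝔮) (xq_le_half K hs.le 𝔮)).2
    nlinarith [xq_pos K s 𝔮, xq_le_half K hs.le 𝔮]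

theorem tsum_neglog {s : ℝ} (hs : 1 < s) :
    ∑' 𝔮 : HeightOneSpectrum (𝓞 K), -Real.log (1 - xq K s 𝔮)
      = Real.log ‖dedekindZeta K s‖ := by
  have h1 : HasProd (fun 𝔮 : HeightOneSpectrum (𝓞 K) => (1 - xq K s 𝔮)⁻¹)
      ‖dedekindZeta K s‖ := by
    have h := (dedekindZeta_hasProd K (s : ℂ) (by simpa using hs)).norm
    refine h.congr_fun ?_
    intro 𝔮
    have h2 := xq_le_half K hs.le 𝔮
    rw [term_real, norm_inv, ← Complex.ofReal_one, ← Complex.ofReal_sub, Complex.norm_real,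
      Real.norm_of_nonneg (by linarith)]
  have h3 := ((summable_neglog K hs).hasSum).rexp
  have h4 : HasProd (fun 𝔮 : HeightOneSpectrum (𝓞 K) => (1 - xq K s 𝔮)⁻¹)
      (Real.exp (∑' 𝔮 : HeightOneSpectrum (𝓞 K), -Real.log (1 - xq K s 𝔮))) := by
    refine h3.congr_fun ?_
    intro 𝔮
    have h2 := xq_le_half K hs.le 𝔮
    rw [Function.comp_apply, Real.exp_neg, Real.exp_log (by linarith)]
  rw [h1.unique h4, Real.log_exp]

theorem sum_xq_log : ∃ C : ℝ, ∀ᶠ s in 𝓝[>] (1 : ℝ),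
    |∑' 𝔮 : HeightOneSpectrum (𝓞 K), xq K s 𝔮 - Real.log (1 / (s - 1))| ≤ C := by
  set ρ := dedekindZeta_residue K with hρ
  have hρ0 : 0 < ρ := dedekindZeta_residue_pos K
  have h1 : Tendsto (fun s : ℝ => (s - 1) * ‖dedekindZeta K s‖) (𝓝[>] 1) (𝓝 ρ) := by
    have h := (tendsto_sub_one_mul_dedekindZeta_nhdsGT K).norm
    rw [Complex.norm_real, Real.norm_of_nonneg hρ0.le] at h
    refine h.congr' ?_
    filter_upwards [self_mem_nhdsWithin] with s hs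
    have hs1 : (1 : ℝ) < s := hs
    rw [norm_mul, ← Complex.ofReal_one, ← Complex.ofReal_sub, Complex.norm_real,
      Real.norm_of_nonneg (by linarith)]
  have h2 : ∀ᶠ s : ℝ in 𝓝[>] (1 : ℝ), (s - 1) * ‖dedekindZeta K (s : ℂ)‖ ∈ Set.Icc (ρ / 2) (2 * ρ) :=
    h1 (Icc_mem_nhds (by linarith) (by linarith))
  refine ⟨2 * ∑' 𝔮 : HeightOneSpectrum (𝓞 K), xq K 2 𝔮 + |Real.log (ρ / 2)| +
    |Real.log (2 * ρ)|, ?_⟩
  filter_upwards [h2, self_mem_nhdsWithin] with s hs2 hs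
  have hs1 : (1 : ℝ) < s := hs
  have hsum := summable_xq K hs1
  have hsum2 := summable_xq K (show (1:ℝ) < 2 by norm_num)
  have hlog := summable_neglog K hs1
  have hpos : 0 < s - 1 := by linarith
  have hz : 0 < ‖dedekindZeta K s‖ := by
    by_contra hneg
    have h0 : ‖dedekindZeta K s‖ = 0 := le_antisymm (not_lt.1 hneg) (norm_nonneg _)
    rw [h0, mul_zero] at hs2
    have := hs2.1
    linarith
  have hT := tsum_neglog K hs1
  have hle : ∑' 𝔮 : HeightOneSpectrum (𝓞 K), xq K s 𝔮 ≤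
      ∑' 𝔮 : HeightOneSpectrum (𝓞 K), -Real.log (1 - xq K s 𝔮) :=
    hsum.tsum_le_tsum (fun 𝔮 => (neglog_bound (xq_pos K s 𝔮) (xq_le_half K hs1.le 𝔮)).1) hlog
  have hge : ∑' 𝔮 : HeightOneSpectrum (𝓞 K), -Real.log (1 - xq K s 𝔮) ≤
      ∑' 𝔮 : HeightOneSpectrum (𝓞 K), xq K s 𝔮 +
        2 * ∑' 𝔮 : HeightOneSpectrum (𝓞 K), xq K 2 𝔮 := by
    rw [← tsum_mul_left, ← hsum.tsum_add (hsum2.mul_left 2)]
    refine hlog.tsum_le_tsum (fun 𝔮 => ?_) (hsum.add (hsum2.mul_left 2))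
    have h3 := (neglog_bound (xq_pos K s 𝔮) (xq_le_half K hs1.le 𝔮)).2
    have h4 : xq K s 𝔮 ^ 2 ≤ xq K 2 𝔮 := by
      have h5 : xq K s 𝔮 ^ 2 = xq K (2 * s) 𝔮 := by
        unfold xq
        rw [← Real.rpow_natCast, ← Real.rpow_mul (by positivity)]
        congr 1
        push_cast
        ring
      rw [h5]
      exact xq_anti K (by linarith) 𝔮
    linarith
  have hlogz : Real.log ‖dedekindZeta K s‖ - Real.log (1 / (s - 1))
      = Real.log ((s - 1) * ‖dedekindZeta K s‖) := by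
    rw [Real.log_mul hpos.ne' hz.ne', one_div, Real.log_inv]
    ring
  have hm : 0 < (s - 1) * ‖dedekindZeta K s‖ := mul_pos hpos hz
  have h6 : Real.log (ρ / 2) ≤ Real.log ((s - 1) * ‖dedekindZeta K s‖) :=
    Real.log_le_log (by linarith) hs2.1
  have h7 : Real.log ((s - 1) * ‖dedekindZeta K s‖) ≤ Real.log (2 * ρ) :=
    Real.log_le_log hm hs2.2
  have h8 := neg_abs_le (Real.log (ρ / 2))
  have h9 := le_abs_self (Real.log (2 * ρ))
  have h10 : 0 ≤ ∑' 𝔮 : HeightOneSpectrum (𝓞 K), xq K 2 𝔮 :=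
    tsum_nonneg fun 𝔮 => (xq_pos K 2 𝔮).le
  have h11 := abs_nonneg (Real.log (ρ / 2))
  have h12 := abs_nonneg (Real.log (2 * ρ))
  rw [abs_le]
  constructor <;> linarith

/-- The bijection of the primes with norm `p` above `p` and the ideals of norm `p`. -/
theorem card_norm_prime (p : ℕ) [hp : Fact p.Prime] :
    Nat.card {𝔮 : (sp p).primesOver (𝓞 K) // absNorm 𝔮.1 = p} = cnt K p := by
  unfold cnt
  refine Nat.card_congr ⟨fun 𝔮 => ⟨𝔮.1.1, 𝔮.2⟩, fun I => ⟨⟨I.1, ?_, ?_⟩, I.2⟩, fun 𝔮 => rfl,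
    fun I => rfl⟩
  · have := isPrime_of_irreducible_absNorm (I := I.1) (by rw [I.2]; exact hp.out)
    exact this
  · have h1 : I.1.IsPrime := isPrime_of_irreducible_absNorm (I := I.1) (by rw [I.2]; exact hp.out)
    have h2 := Int.liesOver_span_absNorm I.1
    have h3 : absNorm (I.1.under ℤ) = p := by
      have h4 : absNorm (I.1.under ℤ) ∣ absNorm I.1 := by
        exact Int.absNorm_under_dvd_absNorm I.1
      have h5 : absNorm (I.1.under ℤ) ≠ 1 := by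
        intro h
        rw [absNorm_eq_one_iff] at h
        exact (h1.under ℤ).ne_top h
      rw [I.2] at h4
      exact (hp.out.eq_one_or_self_of_dvd _ h4).resolve_left h5
    rw [h3] at h2
    exact h2

/-- The sum over the primes above `p`. -/
def FF (s : ℝ) (p : Nat.Primes) : ℝ :=
  ∑' 𝔮 : (sp (p : ℕ)).primesOver (𝓞 K), ((absNorm 𝔮.1 : ℕ) : ℝ) ^ (-s)

theorem card_primesOver_le (p : ℕ) [hp : Fact p.Prime] :
    Fintype.card ((sp p).primesOver (𝓞 K)) ≤ Module.finrank ℚ K := by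
  have h1 := Ideal.card_primesOverFinset_le_finrank (S := 𝓞 K) ℚ K (sp_ne_bot p)
  refine le_trans (le_of_eq ?_) h1
  rw [← Nat.card_eq_fintype_card, Nat.card_coe_set_eq,
    ← IsDedekindDomain.coe_primesOverFinset (sp_ne_bot p) (𝓞 K), Set.ncard_coe_finset]

theorem FF_bound {s : ℝ} (hs : 1 < s) (p : Nat.Primes) :
    (cnt K p : ℝ) * (p : ℝ) ^ (-s) ≤ FF K s p ∧
    FF K s p ≤ (cnt K p : ℝ) * (p : ℝ) ^ (-s) + (Module.finrank ℚ K : ℝ) * (p : ℝ) ^ (-2 : ℝ) := by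
  classical
  have hp : Fact (p : ℕ).Prime := ⟨p.2⟩
  have hp2 : (2 : ℝ) ≤ (p : ℕ) := by exact_mod_cast p.2.two_le
  have hF : FF K s p = ∑ 𝔮 : (sp (p : ℕ)).primesOver (𝓞 K),
      ((absNorm 𝔮.1 : ℕ) : ℝ) ^ (-s) := tsum_fintype _
  have hc : (cnt K p : ℝ) * (p : ℝ) ^ (-s) = ∑ 𝔮 : (sp (p : ℕ)).primesOver (𝓞 K),
      if absNorm 𝔮.1 = (p : ℕ) then (p : ℝ) ^ (-s) else 0 := by
    rw [← card_norm_prime K (p : ℕ), ← Finset.sum_filter, Finset.sum_const, nsmul_eq_mul,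
      Nat.card_eq_fintype_card, Fintype.card_subtype]
  have hterm : ∀ 𝔮 : (sp (p : ℕ)).primesOver (𝓞 K), absNorm 𝔮.1 ≠ (p : ℕ) →
      ((absNorm 𝔮.1 : ℕ) : ℝ) ^ (-s) ≤ (p : ℝ) ^ (-2 : ℝ) := by
    intro 𝔮 hne
    have h1 := absNorm_primesOver (p : ℕ) 𝔮
    have h2 : 2 ≤ 𝔮.1.inertiaDeg ℤ := by
      have hm := maximal_of_primesOver (p : ℕ) 𝔮
      by_contra h
      have h3 : 𝔮.1.inertiaDeg ℤ = 0 ∨ 𝔮.1.inertiaDeg ℤ = 1 := by omega
      rcases h3 with h3 | h3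
      · rw [h3, pow_zero] at h1
        exact hm.ne_top (absNorm_eq_one_iff.1 h1)
      · rw [h3, pow_one] at h1
        exact hne h1
    have h3 : (p : ℝ) ^ 2 ≤ ((absNorm 𝔮.1 : ℕ) : ℝ) := by
      rw [h1]
      push_cast
      exact pow_le_pow_right₀ (by linarith) h2
    calc ((absNorm 𝔮.1 : ℕ) : ℝ) ^ (-s) ≤ ((p : ℝ) ^ 2) ^ (-s) :=
          Real.rpow_le_rpow_of_nonpos (by positivity) h3 (by linarith)
      _ = (p : ℝ) ^ (-(2 * s)) := by
          rw [← Real.rpow_natCast, ← Real.rpow_mul (by positivity)]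
          congr 1
          push_cast
          ring
      _ ≤ (p : ℝ) ^ (-2 : ℝ) := Real.rpow_le_rpow_of_exponent_le (by linarith) (by linarith)
  constructor
  · rw [hF, hc]
    refine Finset.sum_le_sum fun 𝔮 _ => ?_
    split_ifs with h
    · rw [h]
    · positivity
  · rw [hF, hc]
    have h4 : (Module.finrank ℚ K : ℝ) * (p : ℝ) ^ (-2 : ℝ) ≥
        ∑ 𝔮 : (sp (p : ℕ)).primesOver (𝓞 K), (p : ℝ) ^ (-2 : ℝ) := by
      rw [Finset.sum_const, nsmul_eq_mul, Finset.card_univ]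
      have h5 := card_primesOver_le K (p : ℕ)
      have h6 : (Fintype.card ((sp (p : ℕ)).primesOver (𝓞 K)) : ℝ) ≤ Module.finrank ℚ K := by
        exact_mod_cast h5
      exact mul_le_mul_of_nonneg_right h6 (by positivity)
    refine le_trans ?_ (add_le_add_right h4 _)
    rw [← Finset.sum_add_distrib]
    refine Finset.sum_le_sum fun 𝔮 _ => ?_
    split_ifs with h
    · rw [h]
      have : (0 : ℝ) ≤ (p : ℝ) ^ (-2 : ℝ) := by positivity
      linarith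
    · rw [zero_add]
      exact hterm 𝔮 h

theorem summable_rpow_primes {s : ℝ} (hs : 1 < s) :
    Summable fun p : Nat.Primes => (p : ℝ) ^ (-s) := by
  have h := (Real.summable_nat_rpow (p := -s)).2 (by linarith)
  exact h.comp_injective (i := fun p : Nat.Primes => (p : ℕ)) Subtype.val_injective

theorem hasSum_FF {s : ℝ} (hs : 1 < s) :
    HasSum (FF K s) (∑' 𝔮 : HeightOneSpectrum (𝓞 K), xq K s 𝔮) := by
  have h1 := (summable_xq K hs).hasSum
  rw [← (Equiv.ofBijective _ (regr_bij (F := K))).hasSum_iff] at h1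
  refine h1.sigma fun p => ?_
  have : Fact (p : ℕ).Prime := ⟨p.2⟩
  exact (Summable.of_finite).hasSum

/-- The primes of degree one. -/
theorem summable_cntp {s : ℝ} (hs : 1 < s) :
    Summable fun p : Nat.Primes => (cnt K p : ℝ) * (p : ℝ) ^ (-s) :=
  Summable.of_nonneg_of_le (fun p => by positivity) (fun p => (FF_bound K hs p).1)
    (hasSum_FF K hs).summable

theorem cntp_bound {s : ℝ} (hs : 1 < s) :
    |∑' 𝔮 : HeightOneSpectrum (𝓞 K), xq K s 𝔮 -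
      ∑' p : Nat.Primes, (cnt K p : ℝ) * (p : ℝ) ^ (-s)| ≤
    (Module.finrank ℚ K : ℝ) * ∑' p : Nat.Primes, (p : ℝ) ^ (-2 : ℝ) := by
  have hF := hasSum_FF K hs
  have hc := summable_cntp K hs
  have h2 := summable_rpow_primes (show (1 : ℝ) < 2 by norm_num)
  have h3 : ∑' p : Nat.Primes, (cnt K p : ℝ) * (p : ℝ) ^ (-s) ≤
      ∑' 𝔮 : HeightOneSpectrum (𝓞 K), xq K s 𝔮 := by
    rw [← hF.tsum_eq]
    exact hc.tsum_le_tsum (fun p => (FF_bound K hs p).1) hF.summable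
  have h4 : ∑' 𝔮 : HeightOneSpectrum (𝓞 K), xq K s 𝔮 ≤
      ∑' p : Nat.Primes, (cnt K p : ℝ) * (p : ℝ) ^ (-s) +
      (Module.finrank ℚ K : ℝ) * ∑' p : Nat.Primes, (p : ℝ) ^ (-2 : ℝ) := by
    rw [← hF.tsum_eq, ← tsum_mul_left, ← hc.tsum_add (h2.mul_left _)]
    exact hF.summable.tsum_le_tsum (fun p => (FF_bound K hs p).2) (hc.add (h2.mul_left _))
  rw [abs_le]
  constructor <;> linarith

/-- **The prime ideal theorem in its simplest form.** -/
theorem cntp_log : ∃ C : ℝ, ∀ᶠ s in 𝓝[>] (1 : ℝ),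
    |∑' p : Nat.Primes, (cnt K p : ℝ) * (p : ℝ) ^ (-s) - Real.log (1 / (s - 1))| ≤ C := by
  obtain ⟨C, hC⟩ := sum_xq_log K
  refine ⟨C + (Module.finrank ℚ K : ℝ) * ∑' p : Nat.Primes, (p : ℝ) ^ (-2 : ℝ), ?_⟩
  filter_upwards [hC, self_mem_nhdsWithin] with s h1 hs
  have hs1 : (1 : ℝ) < s := hs
  have h2 := cntp_bound K hs1
  rw [abs_le] at h1 h2 ⊢
  constructor <;> linarith [h1.1, h1.2, h2.1, h2.2]

end one

end

end Pool.Agent.H53SCD
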